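import Pool.Agent.Helper70.BI.HH.AsmH0
import Pool.Agent.Helper68.BI7.M_WWL

/-!
# Project BI, stage 7 (H): final assembly
-/

set_option autoImplicit false

namespace Pool.Agent.Helper70.HH

theorem hSUR : StSUR := hSUR_of m_WWL

theorem topGHB (h8 : Pool.Agent.Helper18.BI.S5.StFinal8) : StGHB := ghb_of m_WWL h8

end Pool.Agent.Helper70.HH
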