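import Pool.Agent.Helper70.BI.HH.StHE

/-!
# Project BI, stage 7 (H): the second homotopy group modulo drift is a quotient of `H_3` of the fundamental group
-/

set_option autoImplicit false

open scoped Topology unitInterval Manifold ContDiff
open Set Pool.Agent.Helper65.Barb Pool.Agent.Helper18.BI
open Pool.Agent.Helper70.T

namespace Pool.Agent.Helper70.HH

namespace SUR

variable {X : Type} [TopologicalSpace X]

theorem mk_eq {x y : X} {p p' : Path x y} (α : Q2 p p') :
    Path.Homotopic.Quotient.mk p = Path.Homotopic.Quotient.mk p' := by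
  induction α using Path.Homotopic.Quotient.ind with | mk γ =>
  refine Path.Homotopic.Quotient.eq.2 ⟨⟨⟨raw γ, ?_, ?_⟩, ?_⟩⟩
  · intro t
    show γ 0 t = p t
    rw [γ.source]
  · intro t
    show γ 1 t = p' t
    rw [γ.target]
  · rintro s t (rfl | rfl)
    · show γ s 0 = p 0
      rw [(γ s).source, p.source]
    · show γ s 1 = p 1
      rw [(γ s).target, p.target]

/-- the class of a closed 2-cell -/
noncomputable def cc {M : Type} (sq : ((Fin 2 → I) → X) → M) {x y : X} (p : Path x y)
    (α : Q2 p p) : M := sq (sphP (Quotient.out α))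

theorem mcl_surj {y₀ : X} (m : MM X y₀) : ∃ g : GenLoop (Fin 2) X y₀, mcl g = m := by
  obtain ⟨z, hz⟩ := QuotientGroup.mk_surjective (Additive.toMul m)
  induction z using Quotient.inductionOn with | h g =>
  exact ⟨g, congrArg Additive.ofMul hz⟩

theorem mcl_const {y₀ : X} : mcl (GenLoop.const : GenLoop (Fin 2) X y₀) = 0 := by
  have h : hcl (GenLoop.const : GenLoop (Fin 2) X y₀) = 1 := HomotopyGroup.one_def.symm
  unfold mcl
  rw [h]
  rfl

end SUR

theorem m_SUR (hSC : StSC) (hCCA : StCCA) (hCCB : StCCB) (hCCC : StCCC) (hCCD : StCCD)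
    (hWEX : StWEX) (hKAP : StKAP) (hCOB : StCOB) (hUNT : StUNT) (hCUB : StCUB) (hBIS : StBIS)
    (hBDC : StBDC) (hGHA : StGHA) : StSUR := by
  intro X _ _ y₀ hvan
  obtain ⟨sq, hsq⟩ := hSC X y₀
  obtain ⟨hA1, hA2⟩ := hCCA X y₀ sq hsq
  have hcc : ∀ {x y : X} (p : Path x y) (γ : Path p p),
      SUR.cc sq p (Path.Homotopic.Quotient.mk γ) = sq (sphP γ) := by
    intro x y p γ
    exact hA1 x y p _ γ (Path.Homotopic.Quotient.exact
      (Quotient.out_eq (Path.Homotopic.Quotient.mk γ)))
  have hCC : IsCC X (MM X y₀) (fun {x y} p α => SUR.cc sq p α) := by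
    constructor
    · intro x y p α β
      induction α using Path.Homotopic.Quotient.ind with | mk γ =>
      induction β using Path.Homotopic.Quotient.ind with | mk δ =>
      rw [← Path.Homotopic.Quotient.mk_trans]
      simp only [hcc]
      exact hCCB X y₀ sq hsq x y p γ δ
    · intro x y p q α β
      induction α using Path.Homotopic.Quotient.ind with | mk γ =>
      induction β using Path.Homotopic.Quotient.ind with | mk δ =>
      rw [← Path.Homotopic.Quotient.mk_trans, ← Path.Homotopic.Quotient.mk_trans]
      simp only [hcc]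
      exact hA2 x y p q γ δ
    · intro x y z p q α β
      induction α using Path.Homotopic.Quotient.ind with | mk γ =>
      induction β using Path.Homotopic.Quotient.ind with | mk δ =>
      rw [hc_mk]
      simp only [hcc]
      exact hCCC X y₀ sq hsq x y z p q γ δ
  obtain ⟨w, f, hw⟩ := hWEX X (MM X y₀) (fun {x y} p α => SUR.cc sq p α) hCC
  obtain ⟨κ, hκ, hκ'⟩ := hKAP X (MM X y₀) (fun {x y} p α => SUR.cc sq p α) w f hw
  refine hGHA (FundamentalGroup X y₀) (MM X y₀) (fun g h k => κ (x := y₀) (y := y₀) (z := y₀)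
    (w := y₀) k h g) ?_ ?_
  · intro g h k l
    have h1 := hκ (x := y₀) (y := y₀) (z := y₀) (w := y₀) (v := y₀) l k h g
    show κ (x := y₀) (y := y₀) (z := y₀) (w := y₀) l k h -
      κ (x := y₀) (y := y₀) (z := y₀) (w := y₀) l k
        (Path.Homotopic.Quotient.trans (x₀ := y₀) (x₁ := y₀) (x₂ := y₀) h g) +
      κ (x := y₀) (y := y₀) (z := y₀) (w := y₀) l
        (Path.Homotopic.Quotient.trans (x₀ := y₀) (x₁ := y₀) (x₂ := y₀) k h) g -
      κ (x := y₀) (y := y₀) (z := y₀) (w := y₀)
        (Path.Homotopic.Quotient.trans (x₀ := y₀) (x₁ := y₀) (x₂ := y₀) l k) h g +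
      κ (x := y₀) (y := y₀) (z := y₀) (w := y₀) k h g = 0
    rw [← h1]
    abel
  · intro χ b hb
    -- the coboundary on the groupoid
    obtain ⟨b', hb'⟩ := hCOB X y₀ (AddCircle (1 : ℚ))
      (fun {x y z w} g h k => χ (κ (x := x) (y := y) (z := z) (w := w) g h k)) (by
        intro x y z w v g h k l
        have h1 := hκ g h k l
        show χ (κ h k l) - χ (κ (g.trans h) k l) + χ (κ g (h.trans k) l) -
          χ (κ g h (k.trans l)) + χ (κ g h k) = 0
        rw [← map_sub, ← map_add, ← map_sub, ← map_add, h1, map_zero])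
      (fun g h => - b h g) (by
        intro g h k
        have h1 := hb k h g
        show χ (κ (x := y₀) (y := y₀) (z := y₀) (w := y₀) g h k) = _
        refine h1.trans ?_
        show b h g - b (Path.Homotopic.Quotient.trans (x₀ := y₀) (x₁ := y₀) (x₂ := y₀) h k) g +
          b k (Path.Homotopic.Quotient.trans (x₀ := y₀) (x₁ := y₀) (x₂ := y₀) g h) - b k h =
          -b k h - -b k (Path.Homotopic.Quotient.trans (x₀ := y₀) (x₁ := y₀) (x₂ := y₀) g h) +
          -b (Path.Homotopic.Quotient.trans (x₀ := y₀) (x₁ := y₀) (x₂ := y₀) h k) g - -b h g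
        abel)
    obtain ⟨w', v', hU, hraw⟩ := hUNT X (AddCircle (1 : ℚ)) (fun {x y p q} α => χ (w α))
      (fun {x y z} p q => χ (f p q) +
        b' (Path.Homotopic.Quotient.mk p) (Path.Homotopic.Quotient.mk q)) (by
        intro x y p q r α β
        show χ (w (α.trans β)) = χ (w α) + χ (w β)
        rw [hw.add, map_add]) (by
        intro x y z p p' q q' α β
        show χ (w (hc α β)) = χ (w α) + χ (w β) +
          (χ (f p' q') + b' (Path.Homotopic.Quotient.mk p') (Path.Homotopic.Quotient.mk q')) -
          (χ (f p q) + b' (Path.Homotopic.Quotient.mk p) (Path.Homotopic.Quotient.mk q))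
        rw [hw.hor, SUR.mk_eq α, SUR.mk_eq β, map_sub, map_add, map_add]
        abel) (by
        intro x y z v p q r
        show χ (w (asc p q r)) =
          χ (f q r) + b' (Path.Homotopic.Quotient.mk q) (Path.Homotopic.Quotient.mk r) +
          (χ (f p (q.trans r)) +
            b' (Path.Homotopic.Quotient.mk p) (Path.Homotopic.Quotient.mk (q.trans r))) -
          (χ (f p q) + b' (Path.Homotopic.Quotient.mk p) (Path.Homotopic.Quotient.mk q)) -
          (χ (f (p.trans q) r) +
            b' (Path.Homotopic.Quotient.mk (p.trans q)) (Path.Homotopic.Quotient.mk r))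
        have h1 := hb' (Path.Homotopic.Quotient.mk p) (Path.Homotopic.Quotient.mk q)
          (Path.Homotopic.Quotient.mk r)
        rw [hκ' p q r, map_sub, map_sub, map_add, map_add, Path.Homotopic.Quotient.mk_trans,
          Path.Homotopic.Quotient.mk_trans, h1]
        abel)
    have hcoc : IsCoc X (AddCircle (1 : ℚ)) (aa w' v') v' :=
      ⟨hCUB X _ w' v' hU, fun S => (hBIS X _ w' v' hU S).1, fun S => (hBIS X _ w' v' hU S).2⟩
    -- the value of the cocycle on the square of a based sphere
    have key : ∀ (g : GenLoop (Fin 2) X y₀) (S : C(I × I, X)), (∀ x y, S (x, y) = g ![y, x]) →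
        aa w' v' S = χ (mcl g) := by
      intro g S hS
      have hg : ∀ s t : I, (s = 0 ∨ s = 1 ∨ t = 0 ∨ t = 1) → g ![s, t] = y₀ := by
        rintro s t (h | h | h | h)
        · exact g.2 _ ⟨0, Or.inl (by simpa using h)⟩
        · exact g.2 _ ⟨0, Or.inr (by simpa using h)⟩
        · exact g.2 _ ⟨1, Or.inl (by simpa using h)⟩
        · exact g.2 _ ⟨1, Or.inr (by simpa using h)⟩
      have hcont : Continuous fun z : I × I => g ![z.1, z.2] := by
        refine (map_continuous g.1).comp ?_
        refine continuous_pi fun i => ?_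
        fin_cases i
        · exact continuous_fst
        · exact continuous_snd
      let K : C(I × I, X) := ⟨fun z => g ![z.1, z.2], hcont⟩
      let γ : Path (Path.refl y₀) (Path.refl y₀) := mkP K (fun t => hg _ _ (Or.inl rfl))
        (fun t => hg _ _ (Or.inr (Or.inl rfl))) (fun s => hg _ _ (Or.inr (Or.inr (Or.inl rfl))))
        (fun s => hg _ _ (Or.inr (Or.inr (Or.inr rfl))))
      have hγ : ∀ s t, γ s t = g ![s, t] := fun s t => rfl
      have h1 : aa w' v' S = w' (raw γ) := by
        refine hBDC X _ w' v' hU S (raw γ) y₀ ?_ ?_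
        · intro s t hst
          rw [hS]
          refine hg _ _ ?_
          rcases hst with h | h | h | h
          · exact Or.inr (Or.inr (Or.inl h))
          · exact Or.inr (Or.inr (Or.inr h))
          · exact Or.inl h
          · exact Or.inr (Or.inl h)
        · intro s t
          rw [hS]
          rfl
      rw [h1, hraw γ]
      show χ (w (Path.Homotopic.Quotient.mk γ)) = _
      rw [hw.closed]
      show χ (SUR.cc sq _ (Path.Homotopic.Quotient.mk γ)) = _
      rw [hcc, hCCD X y₀ sq hsq g γ hγ]
    have hmcl : ∀ g : GenLoop (Fin 2) X y₀, χ (mcl g) = 0 := by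
      intro g
      have hcont : Continuous fun z : I × I => g ![z.2, z.1] := by
        refine (map_continuous g.1).comp ?_
        refine continuous_pi fun i => ?_
        fin_cases i
        · exact continuous_snd
        · exact continuous_fst
      let S : C(I × I, X) := ⟨fun z => g ![z.2, z.1], hcont⟩
      have hS : ∀ x y, S (x, y) = g ![y, x] := fun x y => rfl
      have h1 := hvan (AddCircle (1 : ℚ)) (aa w' v') v' hcoc S y₀ (by
        rintro s t (h | h | h | h)
        · exact g.2 _ ⟨1, Or.inl (by simpa using h)⟩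
        · exact g.2 _ ⟨1, Or.inr (by simpa using h)⟩
        · exact g.2 _ ⟨0, Or.inl (by simpa using h)⟩
        · exact g.2 _ ⟨0, Or.inr (by simpa using h)⟩)
      rw [key g S hS, key GenLoop.const (ContinuousMap.const _ y₀) (fun x y => rfl),
        SUR.mcl_const, map_zero] at h1
      exact h1
    refine AddMonoidHom.ext fun m => ?_
    obtain ⟨g, rfl⟩ := SUR.mcl_surj m
    rw [hmcl, AddMonoidHom.zero_apply]

end Pool.Agent.Helper70.HH
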