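import Pool.Agent.Helper70.BI.HH.StHF
import Pool.Agent.Helper70.BI.HH.M_SUR
import Pool.Agent.Helper2.BI7.M_BDC
import Pool.Agent.Helper2.BI7.M_UNT
import Pool.Agent.Helper4.BI7.M_TDB
import Pool.Agent.Helper46.BI7.M_CHV
import Pool.Agent.Helper48.BI7.M_PCN
import Pool.Agent.Helper48.BI7.M_PQ
import Pool.Agent.Helper52.BI7.M_TDA
import Pool.Agent.Helper61.BI7.M_CNV
import Pool.Agent.Helper63.BI7.M_CCC
import Pool.Agent.Helper67.BI7.M_BIS
import Pool.Agent.Helper7.BI7.M_HL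
import Pool.Agent.Helper71.BI7.M_ADD
import Pool.Agent.Helper71.BI7.M_MVU
import Pool.Agent.Helper71.BI7.M_SC
import Pool.Agent.Helper71.BI7.M_SCB
import Pool.Agent.Helper73.BI7.M_NAT
import Pool.Agent.Helper75.BI7.M_MVA
import Pool.Agent.Helper79.BI7.M_COB
import Pool.Agent.Helper8.BI7.M_CUB
import Pool.Agent.Helper80.BI7.M_PEN
import Pool.Agent.Helper84.BI7.M_WEX
import Pool.Agent.Helper85.BI7.M_CCD
import Pool.Agent.Helper89.BI7.M_CCB
import Pool.Agent.Helper89.BI7.M_GHA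
import Pool.Agent.Helper89.BI7.M_MVF
import Pool.Agent.Helper92.BI7.M_KAP
import Pool.Agent.Helper94.BI7.M_CCA
import Pool.Agent.Helper95.BI7.M_GRD
import Pool.Agent.Helper99.BI7.M_SCA
import Pool.Agent.Helper27.BI.H.M_CYC
import Pool.Agent.Helper67.BI6.M_PP
import Pool.Agent.Helper4.BI6.M_SQR
import Pool.Agent.Helper99.BI6.M_SQD
import Pool.Agent.Helper70.BI.T.M_MUL
import Pool.Agent.Helper34.BI.R.M_LIP
import Pool.Agent.Helper18.BI.R.M_MQ
import Pool.Agent.Helper18.BI.AsmA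
import Pool.Agent.Helper70.BI.AsmE0

/-!
# Project BI, stage 7 (H): assembly
-/

set_option autoImplicit false

open Pool.Agent.Helper70.T (m_PP m_SQR m_SQD m_MUL)

namespace Pool.Agent.Helper70.HH

theorem hADD : StADD := m_ADD m_PP (m_MUL m_PP m_SQR)

theorem hMVU : StMVU := m_MVU m_TDA m_TDB m_SCA m_SCB m_MVA

theorem hCHV : StCHV :=
  m_CHV Pool.Agent.Helper34.BI.R.m_LIP Pool.Agent.Helper34.BI.R.m_DIM
    Pool.Agent.Helper70.BI.hX2c Pool.Agent.Helper18.BI.hX3 hMVU (m_MVF m_GRD)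

theorem hPCN : StPCN := m_PCN Pool.Agent.Helper70.BI.hX2c Pool.Agent.Helper18.BI.hX3

theorem hKAP : StKAP := m_KAP m_HL m_NAT (m_PEN m_CNV)

theorem hSUR_of (hWWL : StWWL) : StSUR :=
  m_SUR m_SC (m_CCA m_PQ) (m_CCB m_PP m_PQ hADD) (m_CCC m_PP m_PQ hADD) (m_CCD m_SQR m_PQ)
    (m_WEX m_HL) hKAP m_COB m_UNT (m_CUB hWWL) (m_BIS hWWL) m_BDC m_GHA

theorem ghb_of (hWWL : StWWL) (h8 : Pool.Agent.Helper18.BI.S5.StFinal8) : StGHB :=
  ghb Pool.Agent.Helper18.BI.hCI m_SQD Pool.Agent.Helper18.BI.R.m_MQ h8 hPCN hCHV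
    (hSUR_of hWWL) m_CYC

end Pool.Agent.Helper70.HH
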