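import Pool.Agent.Helper70.BI.HH.StHA

/-!
# Project BI, stage 7 (H): 2-cells, basic definitions
-/

set_option autoImplicit false

open scoped Topology unitInterval
open Set

namespace Pool.Agent.Helper70.HH

section cells

variable {X : Type} [TopologicalSpace X]

/-- a continuous family of paths is a path in the space of paths -/
def mkP {x y : X} {p q : Path x y} (H : C(I × I, X)) (h0 : ∀ t, H (0, t) = p t)
    (h1 : ∀ t, H (1, t) = q t) (hx : ∀ s, H (s, 0) = x) (hy : ∀ s, H (s, 1) = y) : Path p q where
  toFun s := ⟨⟨fun t => H (s, t), by fun_prop⟩, hx s, hy s⟩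
  continuous_toFun := by
    rw [← Path.continuous_uncurry_iff]
    exact H.continuous
  source' := by
    ext t
    exact h0 t
  target' := by
    ext t
    exact h1 t

theorem mkP_apply {x y : X} {p q : Path x y} (H : C(I × I, X)) (h0 : ∀ t, H (0, t) = p t)
    (h1 : ∀ t, H (1, t) = q t) (hx : ∀ s, H (s, 0) = x) (hy : ∀ s, H (s, 1) = y) (s t : I) :
    mkP H h0 h1 hx hy s t = H (s, t) := rfl

/-- the square of a 2-cell -/
def raw {x y : X} {p q : Path x y} (γ : Path p q) : C(I × I, X) :=
  ⟨fun z => γ z.1 z.2, Path.continuous_uncurry_iff.2 γ.continuous⟩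

theorem raw_apply {x y : X} {p q : Path x y} (γ : Path p q) (z : I × I) : raw γ z = γ z.1 z.2 :=
  rfl

/-- horizontal composition of classes of 2-cells -/
noncomputable def hc {x y z : X} {p p' : Path x y} {q q' : Path y z} (α : Q2 p p')
    (β : Q2 q q') : Q2 (p.trans q) (p'.trans q') :=
  Path.Homotopic.Quotient.map (Path.Homotopic.prod α β)
    ⟨fun u : Path x y × Path y z => u.1.trans u.2, continuous_fst.path_trans continuous_snd⟩

theorem hc_mk {x y z : X} {p p' : Path x y} {q q' : Path y z} (γ : Path p p') (δ : Path q q') :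
    hc (Path.Homotopic.Quotient.mk γ) (Path.Homotopic.Quotient.mk δ) =
      Path.Homotopic.Quotient.mk (hcP γ δ) := by
  unfold hc
  rfl

/-- the reparametrization which transforms `(p q) r` into `p (q r)` -/
noncomputable def phi (t : ℝ) : ℝ := if t ≤ 1 / 2 then t / 2 else if t ≤ 3 / 4 then t - 1 / 4
  else 2 * t - 1

theorem continuous_phi : Continuous phi := by
  unfold phi
  refine Continuous.if_le (by fun_prop) ?_ continuous_id continuous_const ?_
  · refine Continuous.if_le (by fun_prop) (by fun_prop) continuous_id continuous_const ?_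
    intro t ht
    have : t = 3 / 4 := ht
    rw [this]
    norm_num
  · intro t ht
    have : t = 1 / 2 := ht
    rw [this]
    norm_num

/-- `(p q) r` in the new parametrization is `p (q r)` -/
theorem phi_trans {x y z w : X} (p : Path x y) (q : Path y z) (r : Path z w) (t : ℝ) :
    ((p.trans q).trans r).extend (phi t) = (p.trans (q.trans r)).extend t := by
  by_cases h1 : t ≤ 1 / 2
  · have hp : phi t = t / 2 := if_pos h1
    rw [hp, Path.extend_trans_of_le_half _ _ (by linarith : t / 2 ≤ 1 / 2),
      Path.extend_trans_of_le_half _ _ (by linarith : 2 * (t / 2) ≤ 1 / 2),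
      Path.extend_trans_of_le_half _ _ h1]
    congr 1
    ring
  · by_cases h2 : t ≤ 3 / 4
    · have hp : phi t = t - 1 / 4 := by unfold phi; rw [if_neg h1, if_pos h2]
      rw [hp, Path.extend_trans_of_le_half _ _ (by linarith : t - 1 / 4 ≤ 1 / 2),
        Path.extend_trans_of_half_le _ _ (by linarith : 1 / 2 ≤ 2 * (t - 1 / 4)),
        Path.extend_trans_of_half_le _ _ (by linarith : 1 / 2 ≤ t),
        Path.extend_trans_of_le_half _ _ (by linarith : 2 * t - 1 ≤ 1 / 2)]
      congr 1
      ring
    · have hp : phi t = 2 * t - 1 := by unfold phi; rw [if_neg h1, if_neg h2]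
      rw [hp, Path.extend_trans_of_half_le _ _ (by linarith : 1 / 2 ≤ 2 * t - 1),
        Path.extend_trans_of_half_le _ _ (by linarith : 1 / 2 ≤ t),
        Path.extend_trans_of_half_le _ _ (by linarith : 1 / 2 ≤ 2 * t - 1)]

/-- the associator -/
noncomputable def ascP {x y z w : X} (p : Path x y) (q : Path y z) (r : Path z w) :
    Path ((p.trans q).trans r) (p.trans (q.trans r)) :=
  mkP ⟨fun u => ((p.trans q).trans r).extend ((1 - (u.1 : ℝ)) * u.2 + (u.1 : ℝ) * phi u.2), by
      refine (Path.continuous_extend _).comp ?_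
      have := continuous_phi
      fun_prop⟩ (by
      intro t
      show ((p.trans q).trans r).extend ((1 - ((0 : I) : ℝ)) * t + ((0 : I) : ℝ) * phi t) = _
      rw [Icc.coe_zero, sub_zero, one_mul, zero_mul, add_zero]
      exact Path.extend_apply _ t.2) (by
      intro t
      show ((p.trans q).trans r).extend ((1 - ((1 : I) : ℝ)) * t + ((1 : I) : ℝ) * phi t) = _
      rw [Icc.coe_one, sub_self, zero_mul, zero_add, one_mul, phi_trans]
      exact Path.extend_apply _ t.2) (by
      intro s
      show ((p.trans q).trans r).extend ((1 - (s : ℝ)) * ((0 : I) : ℝ) +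
        (s : ℝ) * phi ((0 : I) : ℝ)) = x
      have : phi 0 = 0 := by unfold phi; norm_num
      rw [Icc.coe_zero, this, mul_zero, mul_zero, add_zero, Path.extend_zero]) (by
      intro s
      show ((p.trans q).trans r).extend ((1 - (s : ℝ)) * ((1 : I) : ℝ) +
        (s : ℝ) * phi ((1 : I) : ℝ)) = w
      have : phi 1 = 1 := by unfold phi; norm_num
      rw [Icc.coe_one, this, mul_one, mul_one, sub_add_cancel, Path.extend_one])

theorem ascP_apply {x y z w : X} (p : Path x y) (q : Path y z) (r : Path z w) (s t : I) :
    ascP p q r s t =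
      ((p.trans q).trans r).extend ((1 - (s : ℝ)) * t + (s : ℝ) * phi t) := rfl

/-- the class of the associator -/
noncomputable def asc {x y z w : X} (p : Path x y) (q : Path y z) (r : Path z w) :
    Q2 ((p.trans q).trans r) (p.trans (q.trans r)) := Path.Homotopic.Quotient.mk (ascP p q r)

end cells

end Pool.Agent.Helper70.HH
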