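import Pool.Agent.Helper70.BI.T.StT

/-!
# Project BI, stage 7 (H): third homology of the knot group (statements, part A)

Goal: for the complement `X` of a knotted 2-sphere in the 4-sphere the second homotopy group modulo `drift` (the
coinvariants) is a quotient of `H_3(pi_1 X; Z)`.

Part A: classes of spheres modulo drift; classes of closed 2-cells.  A 2-cell is a path in the space of paths
`Path x y`.  Statements as `Prop` definitions, with complete proofs in the docstrings; a module `M_X` proves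
`theorem m_X : StX` (possibly from other statements as hypotheses `(h : StY)`).
-/

set_option autoImplicit false

open scoped Topology unitInterval
open Set Pool.Agent.Helper65.Barb Pool.Agent.Helper18.BI
open Pool.Agent.Helper18.FinR (sqr)
open Pool.Agent.Helper18.BI.R (S2)
open Pool.Agent.Helper70.T

namespace Pool.Agent.Helper70.HH

/-- the second homotopy group modulo drift, written additively -/
abbrev MM (X : Type) [TopologicalSpace X] (y₀ : X) : Type :=
  Additive (HomotopyGroup (Fin 2) X y₀ ⧸ Subgroup.closure (drift y₀))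

/-- the class modulo drift -/
noncomputable def mcl {X : Type} [TopologicalSpace X] {y₀ : X} (f : GenLoop (Fin 2) X y₀) :
    MM X y₀ :=
  Additive.ofMul (QuotientGroup.mk (hcl f))

/-- `sq` assigns to a map of the square which is constant on the boundary its class modulo drift -/
structure IsSC (X : Type) [TopologicalSpace X] (y₀ : X) (sq : ((Fin 2 → I) → X) → MM X y₀) :
    Prop where
  base : ∀ f : GenLoop (Fin 2) X y₀, sq f = mcl f
  free : ∀ f g : (Fin 2 → I) → X, Hfree f g → sq f = sq g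
  add : ∀ (y : X) (f g x : GenLoop (Fin 2) X y), hcl f = hcl g * hcl x → sq f = sq g + sq x

/-- MODULE SC.  Classes of free spheres modulo drift.
Proof.  Let `r : Path y₀ y`, `f : GenLoop (Fin 2) X y`.  For `t : Fin 2 → I` let `d t = min (min (t 0) (1 - t 0)) (min (t 1) (1 - t 1))` (as a real number in `[0, 1/2]`; `d t = 0` iff `t` is in the boundary), `c u = (1 - u) / 4` and
`F (u, t) = r.extend (u + 4 d t)` if `d t ≤ c u`, and `= f (fun i => projIcc 0 1 _ ((t i - c u) / (1 - 2 c u)))` otherwise (for `u ∈ [0,1]`; at `d t = c u` both formulas give `y`: `u + 4 c u = 1`, and one of the coordinates of the argument of `f` is `0` or `1`).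
`F` is continuous on `Icc 0 1 ×ˢ univ` (`ContinuousOn.if'`, or on the two closed sets `d t ≤ c u` and `c u ≤ d t`), `F (u, t) = r.extend u` on the boundary, `F (1, t) = f t`.  `rf = F (0, ·)` is a `GenLoop` at `y₀`, and `Hfree rf f`.
(A) For a map `f` of the square with `Hfree f f` (in particular continuous, and constant on the boundary, value `y`) there is `x : GenLoop (Fin 2) X y₀` with `Hfree x f`: `X` is path connected.  Define `sq f = mcl x` for a chosen `x` if there is an `x` with `Hfree x f`, and `0` otherwise.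
(B) If `Hfree x f` and `Hfree x' f` then `hcl x * (hcl x')⁻¹ ∈ drift y₀`, so `mcl x = mcl x'`: `sq f = mcl x` for every `x` with `Hfree x f`.  `base`: `Hfree f f` (constant homotopy).  `free`: `Hfree` is symmetric and transitive (`u ↦ 1 - u`; `2 u`, `2 u - 1`).
(C) `add`: let `y`, `f`, `g`, `x` be given; `r : Path y₀ y`; `F^g`, `F^x` the homotopies above for `g` and `x`.  By `HomotopyGroup.mul_spec` (`⟦p⟧ * ⟦q⟧ = ⟦transAt i q p⟧`) `hcl f = hcl (transAt 0 x g)`, so `f` and `transAt 0 x g` are homotopic rel boundary, hence `Hfree`.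
The concatenations (in the coordinate `t 0`, `t 0 ≤ 1/2`: `F^x (u, 2 t 0, t 1)`, `t 0 ≥ 1/2`: `F^g (u, 2 t 0 - 1, t 1)`) are continuous, constant on the boundary (value `r.extend u`), for `u = 1` this is `transAt 0 x g`, for `u = 0` it is `transAt 0 rx rg`.
So `Hfree (transAt 0 rx rg) f`, and `sq f = mcl (transAt 0 rx rg) = mcl rg + mcl rx = sq g + sq x`. -/
def StSC : Prop :=
  ∀ (X : Type) [TopologicalSpace X] [PathConnectedSpace X] (y₀ : X), ∃ sq, IsSC X y₀ sq

/-- the map of the sphere with the value `H (ρ / 2π, v)` at the point with longitude `ρ` and colatitude `π v` -/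
noncomputable def sph2 {X : Type} (H : ℝ × ℝ → X) (m : R3) : X := H (lon m / (2 * Real.pi), lat m)

/-- MODULE PQ.  Families of spheres given in polar coordinates.
Proof.  As in module PP (`Pool/Agent/Helper67/BI6/M_PP.lean`, `m_PP`, part (4)): the map `(z, ρ, v) ↦ (z, PP (2 π ρ) v)` from `Z × Icc 0 1 × Icc 0 1` to `Z × S2` is a quotient map, and the composition of the map in question with it is `Γ` (second claim).
Second claim: `m = PP (2 π ρ) v`: `lat m = v` (`Real.arccos_cos`); if `0 < v < 1` and `ρ < 1` then `lon m = 2 π ρ`; if `ρ = 1`, `lon m = 0` and `Γ (z, 0, v) = Γ (z, 1, v)`; if `v = 0` or `v = 1` then `Γ (z, ·, v)` is constant on `[0,1]` (and `lon m / 2π ∈ [0,1]`).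
(The proof of `m_PP` can be copied: there `Γ (z, ρ, v)` is `A.R (2 π ρ) (Γ (z, v))`.) -/
def StPQ : Prop :=
  ∀ (X Z : Type) [TopologicalSpace X] [TopologicalSpace Z] (Γ : Z × ℝ × ℝ → X),
    ContinuousOn Γ (univ ×ˢ (Icc (0 : ℝ) 1 ×ˢ Icc (0 : ℝ) 1)) →
    (∀ z, ∀ v ∈ Icc (0 : ℝ) 1, Γ (z, 0, v) = Γ (z, 1, v)) →
    (∀ z, ∀ ρ ∈ Icc (0 : ℝ) 1, Γ (z, ρ, 0) = Γ (z, 0, 0)) →
    (∀ z, ∀ ρ ∈ Icc (0 : ℝ) 1, Γ (z, ρ, 1) = Γ (z, 0, 1)) →
    ContinuousOn (fun p : Z × R3 => sph2 (fun q => Γ (p.1, q)) p.2) (univ ×ˢ S2) ∧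
    ∀ z, ∀ ρ ∈ Icc (0 : ℝ) 1, ∀ v ∈ Icc (0 : ℝ) 1,
      sph2 (fun q => Γ (z, q)) (PP (2 * Real.pi * ρ) v) = Γ (z, ρ, v)

/-- the unit sphere and the disk in the plane `p.1 = 0` -/
def UU : Set R3 := S2 ∪ {p | p.1 = 0 ∧ nsq p ≤ 1}

/-- MODULE ADD.  Additivity: a map of the sphere with the equatorial disk.
Proof (from `StPP`, `StMUL`).  Let `U` be the subtype of `UU`, with the rotation `R ρ (h, w) = (h, exp (ρ I) w)` (an `Act U`, `Act.Fix` contains the points with `w = 0`).  Let `γ : ℝ → U`: `γ v = (cos 2πv, sin 2πv)` for `v ≤ 1/4`, `(0, 2 - 4v)` for `1/4 ≤ v ≤ 1/2`, `(0, 4v - 2)` for `1/2 ≤ v ≤ 3/4`,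
`(cos (2πv - π), sin (2πv - π)) = (- cos 2πv, - sin 2πv)` for `v ≥ 3/4` (extended constantly outside `[0,1]`): from the north pole to the equator, to the centre, to the equator, to the south pole.  `StMUL` (with `y₀ = γ 0 = (1, 0)`) gives GenLoops `f`, `g`, `x` in `U` with `f = A.sph γ ∘ sqr`, `g = A.sph (γ (·/2)) ∘ sqr`,
`hcl f = hcl g * hcl x` and `Hfree x (A.sph (γ (1/2 + ·/2)) ∘ sqr)`.  Compose with `Φ : U → X` (induced map on `HomotopyGroup`: if `hcl f = hcl g * hcl x` then the same for `Φ ∘ f` etc.: `HomotopyGroup.mul_spec`, `Quotient.exact`, compose the homotopy with `Φ`).  By `IsSC.add`, `IsSC.free`: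
`sq (Φ ∘ A.sph γ ∘ sqr) = sq (Φ ∘ A.sph (γ (·/2)) ∘ sqr) + sq (Φ ∘ A.sph (γ (1/2 + ·/2)) ∘ sqr)`.
It remains to see, with `StPP` (4) (`Z = unitInterval`, a homotopy of paths in `U` whose ends are fixed points) and `A.sph δ (PP ρ v) = A.R ρ (δ v)`:
(1) `A.sph γ` is homotopic in `U` to the inclusion `m ↦ m`, which is `A.sph δ` for `δ v = (cos πv, sin πv)`: `γ` is homotopic to `δ` rel ends in the plane set `{(h, x) : h² + x² = 1 or h = 0, 0 ≤ x ≤ 1}`: the part `x = 1 → 0 → 1` of `γ` shrinks (`max x u`), then reparametrize.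
(2) `A.sph (γ (·/2))` is homotopic to `m ↦ (max m.1 0, m.2)`, which is `A.sph δ'`, `δ' v = (max (cos πv) 0, sin πv)`; `γ (v/2)` and `δ' v` are both `(cos, sin)` for `v ≤ 1/2`, and go from `(0,1)` to `(0,0)` in the segment for `v ≥ 1/2` (linear homotopy there; at `v = 1` both are `(0,0)`).
(3) Similarly `A.sph (γ (1/2 + ·/2))` and `m ↦ (min m.1 0, m.2)`.
The value on `S2` of `A.sph δ` is the claimed one by `StPP` (3). -/
def StADD : Prop :=
  ∀ (X : Type) [TopologicalSpace X] (y₀ : X) (sq : ((Fin 2 → I) → X) → MM X y₀),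
    IsSC X y₀ sq → ∀ Φ : R3 → X, ContinuousOn Φ UU →
      sq (fun t => Φ (sqr t)) = sq (fun t => Φ (max (sqr t).1 0, (sqr t).2)) +
        sq (fun t => Φ (min (sqr t).1 0, (sqr t).2))

/-! ## closed 2-cells -/

section cells

variable {X : Type} [TopologicalSpace X]

/-- homotopy classes of 2-cells: `p` and `q` are points of the space `Path x y` -/
abbrev Q2 {x y : X} (p q : Path x y) : Type := Path.Homotopic.Quotient p q

/-- horizontal composition of 2-cells -/
noncomputable def hcP {x y z : X} {p p' : Path x y} {q q' : Path y z} (γ : Path p p')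
    (δ : Path q q') : Path (p.trans q) (p'.trans q') where
  toFun s := (γ s).trans (δ s)
  continuous_toFun := γ.continuous.path_trans δ.continuous
  source' := by rw [γ.source, δ.source]
  target' := by rw [γ.target, δ.target]

/-- the sphere of a closed 2-cell -/
noncomputable def sphP {x y : X} {p q : Path x y} (γ : Path p q) (t : Fin 2 → I) : X :=
  sph2 (fun z => γ (projIcc (0 : ℝ) 1 zero_le_one z.1) (projIcc (0 : ℝ) 1 zero_le_one z.2)) (sqr t)

end cells

/-- MODULE CCA.  Homotopic closed 2-cells; cyclic invariance.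
Proof.  (i) A homotopy gives continuous `K : I × I → Path x y` with `K (u, 0) = K (u, 1) = p`; `Γ (u, ρ, v) = K (u, ρ) v` (with `projIcc`): continuous (evaluation `Path x y × I → X` is continuous); `StPQ` with `Z = I` and the two ends give an `Hfree` (with `sqr` continuous, `sqr t ∈ S2`, `sqr t = (1, 0)` on the boundary; see `SPN.sqr_mem`, `SPN.sqr_bd` in
`Pool/Agent/Helper70/BI/T/M_SPN.lean`, `R.EXC.continuous_sqr`); the value on the boundary is `Γ (u, 0, 0) = x`.
(ii) `γ : Path p q`, `δ : Path q p`.  `E ρ = (γ.trans δ)` extended periodically to `ℝ` (period 1): with `σ ρ = Int.fract ρ`, `E (ρ) = (γ.trans δ).extend (Int.fract ρ)`, continuous as a map `ℝ → Path x y` (as the values at `0` and `1` agree; Mathlib: `Function.Periodic`, `AddCircle.liftIco`, or direct).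
`Γ (u, ρ, v) = E (ρ + u / 2) v`: at `u = 0` the sphere of `γ.trans δ`, at `u = 1` the sphere of `δ.trans γ`. -/
def StCCA : Prop :=
  ∀ (X : Type) [TopologicalSpace X] (y₀ : X) (sq : ((Fin 2 → I) → X) → MM X y₀),
    IsSC X y₀ sq →
    (∀ (x y : X) (p : Path x y) (γ γ' : Path p p), γ.Homotopic γ' → sq (sphP γ) = sq (sphP γ')) ∧
    ∀ (x y : X) (p q : Path x y) (γ : Path p q) (δ : Path q p),
      sq (sphP (γ.trans δ)) = sq (sphP (δ.trans γ))

/-- MODULE CCB.  Vertical composition of closed 2-cells.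
Proof (from `StPQ`, `StADD`, `StSC` not needed).  Let `Γ (ρ, v) = (γ.trans δ) ρ v` and `f = sph2 Γ` (continuous on `S2`, `StPQ` with `Z = Unit`): `f (PP (2πρ) v) = γ (2ρ) v` for `ρ ≤ 1/2`, `δ (2ρ - 1) v` for `ρ ≥ 1/2`, so the points of `S2` with `Im w ≥ 0` are mapped by `γ`, those with `Im w ≤ 0` by `δ`, and those with `Im w = 0` by `p` (value `p (lat m)`).
Let `e (h, w) = p (arccos h / π)` (`h ∈ [-1, 1]`) and `Ψ : R3 → X`, `Ψ m = f m` on `S2`, `Ψ m = e m` on the disk `D = {Im w = 0, nsq ≤ 1}`: continuous on `S2 ∪ D` (closed sets, agree on the intersection).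
Let `T_θ (h, w) = (h cos θ + Im w sin θ, Re w + I (- h sin θ + Im w cos θ))` be the rotation of the `(h, Im w)`-plane; `T = T_{π/2} (h, w) = (Im w, Re w - I h)`, inverse `T⁻¹ (h, w) = (- Im w, Re w + I h)`.
`Φ = Ψ ∘ T⁻¹` is continuous on `UU` (`T⁻¹` maps `h = 0` to `Im w = 0`).  `StADD`: `sq (Φ ∘ sqr) = sq (Φ (max ..)) + sq (Φ (min ..))`.
`Φ` on `S2` is `f ∘ T⁻¹`, freely homotopic to `f` (`f ∘ T_{-θ}`; on the boundary of the square `sqr t = (1, 0)` is constant): `sq (Φ ∘ sqr) = sq (f ∘ sqr)`.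
`m ↦ Φ (max m.1 0, m.2) = Ψ (T⁻¹ (max m.1 0, m.2))` is `G ∘ T⁻¹` with `G (m) = Ψ (m.1, Re m.2 + I max (Im m.2) 0)` (for `m ∈ S2`), freely homotopic to `G` on `S2`; `G (PP (2πρ) v) = γ (2ρ) v` for `ρ ≤ 1/2`, `= p v` for `ρ ≥ 1/2` (there `G m = e m`, `m.1 = cos πv`), so `G = sph2 Γ'` with `Γ' (ρ, v) = γ (min 1 (2ρ)) v`, homotopic to the sphere of `γ` by
`Γ (u, ρ, v) = γ (min 1 ((2 - u) ρ)) v` (`StPQ`, `Z = I`; `γ 0 = γ 1 = p`).  In the same way `min` gives `δ (max 0 (2ρ - 1)) v`, homotopic to the sphere of `δ` (`γ`, `δ` closed). -/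
def StCCB : Prop :=
  ∀ (X : Type) [TopologicalSpace X] (y₀ : X) (sq : ((Fin 2 → I) → X) → MM X y₀),
    IsSC X y₀ sq → ∀ (x y : X) (p : Path x y) (γ δ : Path p p),
      sq (sphP (γ.trans δ)) = sq (sphP γ) + sq (sphP δ)

/-- MODULE CCC.  Horizontal composition of closed 2-cells.
Proof (from `StPQ`, `StADD`).  `γ : Path p p`, `δ : Path q q`, `p : Path x y`, `q : Path y z`.  The sphere of `hcP γ δ` is `f = sph2 Γ`, `Γ (ρ, v) = γ ρ (2v)` for `v ≤ 1/2`, `δ ρ (2v - 1)` for `v ≥ 1/2`; on the equator `m.1 = 0` (`v = 1/2`) the value is `y`.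
`Φ m = f m` on `S2`, `Φ m = y` on the disk: continuous on `UU`.  `StADD`.  `m ↦ Φ (max m.1 0, m.2)` is on `S2` equal to `sph2 Γ'`, `Γ' (ρ, v) = γ ρ (min 1 (2v))`, homotopic to the sphere of `γ` by `γ ρ (min 1 ((2 - u) v))` (`StPQ`, `Z = I`), and `m ↦ Φ (min m.1 0, m.2)` is `sph2` of `δ ρ (max 0 (2v - 1))`, homotopic to the sphere of `δ` by
`δ ρ (max 0 (1 - (2 - u) (1 - v)))` (the value at `v = 0` is `y`, constant). -/
def StCCC : Prop :=
  ∀ (X : Type) [TopologicalSpace X] (y₀ : X) (sq : ((Fin 2 → I) → X) → MM X y₀),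
    IsSC X y₀ sq → ∀ (x y z : X) (p : Path x y) (q : Path y z) (γ : Path p p) (δ : Path q q),
      sq (sphP (hcP γ δ)) = sq (sphP γ) + sq (sphP δ)

/-- MODULE CCD.  The sphere of a closed 2-cell at the constant path.
Proof (from `StSQR`, `StPQ`).  `γ : Path (refl y₀) (refl y₀)` (as points of `Path y₀ y₀`) with `γ s t = f ![s, t]`, `f : GenLoop`.  The sphere is `h = sph2 (fun z => f ![z.1, z.2])` (with `projIcc`), continuous on `S2` (`StPQ`; all boundary values are `y₀`).
By `StSQR` `h ∘ sqr` and `h ∘ qq` are homotopic rel boundary (compose `G` with `h`), so `sq (sphP γ) = sq (h ∘ qq)`.  By `StPQ` (second claim): `h (qq t) = f ![rho (t 0) / 2π, lam (t 0) * tau (t 1)]` if `t 1 ≤ 1/2`; if `t 1 ≥ 1/2`, `qq t = PP 0 (..)` and `h (qq t) = f ![0, ..] = y₀`.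
Here `rho (t 0) / 2π = max 0 (min 1 (3 t 0 - 1))`, and if this is in `(0,1)` then `t 0 ∈ (1/3, 2/3)` and `lam (t 0) = 1`.  So `h (qq t) = f ![max 0 (min 1 (3 t 0 - 1)), min 1 (2 t 1)]` for ALL `t` (both sides are `y₀` if the first coordinate is `0` or `1` or `t 1 ≥ 1/2`; `f` is `y₀` on the boundary).
This is homotopic rel boundary to `f` by `f ![max 0 (min 1 ((3 - 2u) t 0 - (1 - u))), min 1 ((2 - u) t 1)]` (at `u = 1`: `f t`; on the boundary of the square: `t 0 = 0`: the first coordinate is `0`; `t 0 = 1`: `(3 - 2u) - (1 - u) = 2 - u ≥ 1`: it is `1`; `t 1 = 0`: `0`; `t 1 = 1`: `1`). -/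
def StCCD : Prop :=
  ∀ (X : Type) [TopologicalSpace X] (y₀ : X) (sq : ((Fin 2 → I) → X) → MM X y₀),
    IsSC X y₀ sq → ∀ (f : GenLoop (Fin 2) X y₀) (γ : Path (Path.refl y₀) (Path.refl y₀)),
      (∀ s t, γ s t = f ![s, t]) → sq (sphP γ) = mcl f

end Pool.Agent.Helper70.HH
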