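import Pool.Agent.Helper70.BI.HH.Cells

/-!
# Project BI, stage 7 (H): statements, part B (calculus of 2-cells)

Typed calculus: `Q2 p q` = homotopy classes of paths from `p` to `q` in the space `Path x y`; horizontal composition
`hc`, associator `asc`.  Untyped calculus: a 2-cell is a map `K : C(I × I, X)`, `K (s, t)`, with `K (·, 0)` and
`K (·, 1)` constant (`IsCell`).
-/

set_option autoImplicit false

open scoped Topology unitInterval
open Set

namespace Pool.Agent.Helper70.HH

/-- MODULE HL.  Functoriality of the horizontal composition.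
Proof.  `Path.Homotopic.prod`, `Path.Homotopic.Quotient.map` are functorial: `Path.Homotopic.comp_prod_eq_prod_comp` (Mathlib, `Topology/Homotopy/Product.lean`), `Path.Homotopic.Quotient.map` of a `trans` (or: choose representatives, `hc_mk`; `hcP (γ.trans γ') (δ.trans δ')` and `(hcP γ δ).trans (hcP γ' δ')` are EQUAL as paths: both are
`(γ (2s)).trans (δ (2s))` for `s ≤ 1/2` and `(γ' (2s-1)).trans (δ' (2s-1))` for `s > 1/2`, `Path.ext`, `Path.trans_apply`; `hcP (refl p) (refl q) = refl (p.trans q)`). -/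
def StHL : Prop :=
  ∀ (X : Type) [TopologicalSpace X] (x y z : X),
    (∀ (p p' p'' : Path x y) (q q' q'' : Path y z) (α : Q2 p p') (α' : Q2 p' p'') (β : Q2 q q')
      (β' : Q2 q' q''), hc (α.trans α') (β.trans β') = (hc α β).trans (hc α' β')) ∧
    ∀ (p : Path x y) (q : Path y z),
      hc (Path.Homotopic.Quotient.refl p) (Path.Homotopic.Quotient.refl q) = Path.Homotopic.Quotient.refl (p.trans q)

/-- MODULE CNV.  Two 2-cells which factor through the same map of a normed space are homotopic if the factorizations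
agree on the boundary.
Proof.  `K (r, s) (t) = Φ ((1 - r) • h (s, t) + r • h' (s, t))` is a homotopy between the paths `γ` and `γ'` in `Path x y`: for fixed `(r, s)` a path from `x` to `y` (at `t = 0` and `t = 1` `h = h'` and `Φ (h (s, 0)) = γ s 0 = x`); continuity of `I × I → Path x y` with `Path.continuous_uncurry_iff`; for `s = 0`, `s = 1` it is `γ s`
(`Path.Homotopic` = existence of `Path.Homotopy` = `ContinuousMap.HomotopyRel`). -/
def StCNV : Prop :=
  ∀ (X : Type) [TopologicalSpace X] (E : Type) [NormedAddCommGroup E] [NormedSpace ℝ E] (x y : X)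
    (p q : Path x y) (γ γ' : Path p q) (Φ : C(E, X)) (h h' : C(I × I, E)),
    (∀ s t, γ s t = Φ (h (s, t))) → (∀ s t, γ' s t = Φ (h' (s, t))) →
    (∀ s t, (s = 0 ∨ s = 1 ∨ t = 0 ∨ t = 1) → h (s, t) = h' (s, t)) → γ.Homotopic γ'

/-- MODULE NAT.  Naturality of the associator.
Proof.  Choose representatives `γ`, `δ`, `ε` of `α`, `β`, `ε`.  `G : I × I → Path x w`, `G (s, u) = ascP (γ s) (δ s) (ε s) u`, is continuous (`Path.continuous_uncurry_iff`; `(s, u, t) ↦ (((γ s).trans (δ s)).trans (ε s)).extend ((1-u) t + u phi t)`; `Continuous.path_trans`, evaluation is continuous).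
`G (·, 0) = hcP (hcP γ δ) ε`, `G (1, ·) = ascP p' q' r'`, `G (0, ·) = ascP p q r`, `G (·, 1) = hcP γ (hcP δ ε)` (`phi_trans`, `Path.ext`).  In `I × I` the paths `(s, 0)` then `(1, u)` and `(0, u)` then `(s, 1)` are homotopic (straight line, convex); compose with `G`. -/
def StNAT : Prop :=
  ∀ (X : Type) [TopologicalSpace X] (x y z w : X) (p p' : Path x y) (q q' : Path y z)
    (r r' : Path z w) (α : Q2 p p') (β : Q2 q q') (ε : Q2 r r'),
    (hc (hc α β) ε).trans (asc p' q' r') = (asc p q r).trans (hc α (hc β ε))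

/-- MODULE PEN.  The pentagon.
Proof.  (from `StCNV`)  Let `Φ : C(ℝ, X)` be `(((p.trans q).trans r).trans s).extend`.  All five 2-cells have the form `Φ (g (σ, t))` with `g : I × I → ℝ` continuous (`g` with values in `[0,1]`), with `Path.extend_trans_of_le_half`, `Path.extend_trans_of_half_le`, `phi_trans`:
(1) `ascP (p.trans q) r s`: `g₁ (σ, t) = (1 - σ) t + σ phi t`.  (2) `ascP p q (r.trans s)`: `((p q)(r s)).extend u = Φ (phi u)`, so `g₂ (σ, t) = phi ((1 - σ) t + σ phi t)`.
(3) `hcP (ascP p q r) (refl s)`: for `t ≤ 1/2` it is `((p q) r).extend ((1-σ) 2t + σ phi (2t)) = Φ (((1-σ) 2t + σ phi (2t)) / 2)`, for `t ≥ 1/2`: `Φ t`: `g₃ = ((1-σ) 2 min(t,1/2) + σ phi (2 min(t,1/2))) / 2 + max (t - 1/2) 0`.  Let `k t = g₃ (1, t)`; `((p (q r)) s).extend t = Φ (k t)`.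
(4) `ascP p (q.trans r) s`: `g₄ (σ, t) = k ((1 - σ) t + σ phi t)`.  (5) `hcP (refl p) (ascP q r s)`: for `t ≤ 1/2` `p (2t) = Φ (t / 4)`, for `t ≥ 1/2` `((q r) s).extend u`, `u = (1-σ) (2t-1) + σ phi (2t-1)`; `((q r) s).extend u = Φ (j u)` with `j u = ` : `(p ((q r) s)).extend ((1+u)/2) = Φ (k (phi ((1+u)/2)))`.  So
`g₅ (σ, t) = k (phi (min t (1/2) + ((1-σ) (2t-1)⁺ + σ phi ((2t-1)⁺)) / 2))`, `(2t-1)⁺ = max (2t-1) 0` (for `t ≤ 1/2` this is `k (phi t)`, and `Φ (k (phi t)) = (p ((q r) s)).extend t = p (2t)`).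
The two sides are (classes of) concatenations of these cells; they factor through `Φ` by the concatenations of `g₁, g₂` and of `g₃, (g₄, g₅)` (continuous: `g₁ (1, t) = phi t = g₂ (0, t)`, `g₃ (1, t) = k t = g₄ (0, t)`, `g₄ (1, t) = k (phi t) = g₅ (0, t)`).  They agree for `σ = 0` (`t`) and for `t = 0`, `t = 1`.  For `σ = 1`: `g₂ (1, t) = phi (phi t)`
and `g₅ (1, t) = k (phi (ψ t))`, `ψ t = t` for `t ≤ 1/2`, `(1 + phi (2t - 1)) / 2` for `t ≥ 1/2`.  Claim: `phi (phi t) = k (phi (ψ t))` for `t ∈ [0,1]`: `t ≤ 1/2`: `t/4` and `k (t/2) = phi t / 2 = t/4`; `1/2 ≤ t ≤ 3/4`: `phi (t - 1/4) = (t-1/4)/2` and `ψ t = (1 + (2t-1)/2)/2 = t/2 + 1/4 ∈ [1/2, 5/8]`, `phi = t/2`, `k (t/2) = phi t / 2 = (t - 1/4)/2`;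
`3/4 ≤ t ≤ 7/8`: `phi (2t-1) = 2t - 1 - 1/4` (as `2t - 1 ≤ 3/4`) and `ψ t = (1 + 2t - 5/4)/2 = t - 1/8 ∈ [5/8, 3/4]`, `phi = t - 3/8 ∈ [3/8, 1/2]`, `k = phi (2t - 3/4)/2 = (4t - 3/2 - 1)/2 = 2t - 5/4`; `t ≥ 7/8`: `2 (2t-1) - 1 = 4t - 3` and `ψ t = (1 + 2(2t-1) - 1)/2 = 2t - 1 ≥ 3/4`, `phi = 4t - 3 ≥ 1/2`, `k = 4t - 3`. -/
def StPEN : Prop :=
  ∀ (X : Type) [TopologicalSpace X] (x y z w v : X) (p : Path x y) (q : Path y z) (r : Path z w)
    (s : Path w v),
    (asc (p.trans q) r s).trans (asc p q (r.trans s)) =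
      (hc (asc p q r) (Path.Homotopic.Quotient.refl s)).trans
        ((asc p (q.trans r) s).trans (hc (Path.Homotopic.Quotient.refl p) (asc q r s)))

/-! ## the cocycle -/

/-- properties of the class of closed 2-cells -/
structure IsCC (X : Type) [TopologicalSpace X] (M : Type) [AddCommGroup M]
    (cc : ∀ {x y : X} (p : Path x y), Q2 p p → M) : Prop where
  mul : ∀ {x y : X} (p : Path x y) (α β : Q2 p p), cc p (α.trans β) = cc p α + cc p β
  cyc : ∀ {x y : X} (p q : Path x y) (α : Q2 p q) (β : Q2 q p),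
    cc p (α.trans β) = cc q (β.trans α)
  hor : ∀ {x y z : X} (p : Path x y) (q : Path y z) (α : Q2 p p) (β : Q2 q q),
    cc (p.trans q) (hc α β) = cc p α + cc q β

/-- an additive function on 2-cells which extends the class of closed 2-cells -/
structure IsW (X : Type) [TopologicalSpace X] (M : Type) [AddCommGroup M]
    (cc : ∀ {x y : X} (p : Path x y), Q2 p p → M)
    (w : ∀ {x y : X} {p q : Path x y}, Q2 p q → M)
    (f : ∀ {x y z : X}, Path x y → Path y z → M) : Prop where
  add : ∀ {x y : X} {p q r : Path x y} (α : Q2 p q) (β : Q2 q r), w (α.trans β) = w α + w β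
  closed : ∀ {x y : X} (p : Path x y) (α : Q2 p p), w α = cc p α
  hor : ∀ {x y z : X} {p p' : Path x y} {q q' : Path y z} (α : Q2 p p') (β : Q2 q q'),
    w (hc α β) = w α + w β + f p' q' - f p q

/-- MODULE WEX.  Existence of `w` and `f`.
Proof (from `StHL`).  (A) Abstract lemma 1: let `Z` be a topological space (here `Path x y`), `c : ∀ p : Z, Path.Homotopic.Quotient p p → M` with `c p (α.trans β) = c p α + c p β` and `c p (α.trans β) = c q (β.trans α)` (`α : p → q`, `β : q → p`).  Then there is `w : ∀ p q : Z, Quotient p q → M` with `w (α.trans β) = w α + w β`, `w α = c p α` for closed `α`.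
Proof: `p ~ q` iff `Quotient p q` is nonempty (an equivalence relation on `Z`).  `ρ p` = the chosen representative of the class of `p` (`Quotient.out` of the class for the setoid), so `ρ p = ρ q` if `p ~ q`; choose `k p : Quotient p (ρ p)`.  For `α : Quotient p q` let `w α = c p (α.trans ((k q).trans ((k p).symm.cast ..)))`, where the cast uses `ρ p = ρ q`
(write `back p q (h : p ~ q) : Quotient q p := (k q).trans ((k p).symm.cast (ρ-equality) rfl)`; then for `p ~ q ~ r`: `back q r` then `back p q` = `back p r` [`(k r) (k q)⁻¹ (k q) (k p)⁻¹`; to deal with the casts prove: for `a b c : Z` with `a = b = c` .. by `subst` in an auxiliary lemma] and `back p p = refl`).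
`w (α β) = c p (α β (back p r)) = c p (α β (back q r) (back p q))`, and `α (β (back q r)) (back p q)`: let `μ = β (back q r) : q → q`, `ν = (back p q) α : q → q`; by `cyc` `c p ((α μ) (back p q)) = c q ((back p q) (α μ)) = c q (ν μ) = c q ν + c q μ = c q ((back p q) α) + w β = c p (α (back p q)) + w β = w α + w β`.  Closed: `back p p = refl`.
(B) Abstract lemma 2: if `u : ∀ p q : Z, Quotient p q → M` is additive and `u α = 0` for closed `α` then there is `g : Z → M` with `u α = g q - g p` (`g p = - u (k p)`: `u α = u (k p) - u (k q)` because `α (k q) (k p)⁻¹` is closed; casts as before).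
(C) Apply (A) to `Z = Path x y` for all `x`, `y` (`choose`).  For `x y z` apply (B) to `Z = Path x y × Path y z` and `u γ = w (map by trans) - w (first projection) - w (second projection)` (every class in the product is `Path.Homotopic.prod α β`, `Path.Homotopic.prod_projLeft_projRight`): additive by `StHL` and `w`, zero on closed ones by `cc.hor`.  `f p q = g (p, q)`. -/
def StWEX : Prop :=
  ∀ (X : Type) [TopologicalSpace X] (M : Type) [AddCommGroup M]
    (cc : ∀ {x y : X} (p : Path x y), Q2 p p → M), IsCC X M cc →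
    ∃ (w : ∀ {x y : X} {p q : Path x y}, Q2 p q → M) (f : ∀ {x y z : X}, Path x y → Path y z → M),
      IsW X M cc w f

/-- the 3-cocycle identity for a function of three composable classes of paths -/
def IsK (X : Type) [TopologicalSpace X] (M : Type) [AddCommGroup M]
    (κ : ∀ {x y z w : X}, Path.Homotopic.Quotient x y → Path.Homotopic.Quotient y z → Path.Homotopic.Quotient z w → M) : Prop :=
  ∀ {x y z w v : X} (g : Path.Homotopic.Quotient x y) (h : Path.Homotopic.Quotient y z) (k : Path.Homotopic.Quotient z w) (l : Path.Homotopic.Quotient w v),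
    κ h k l - κ (g.trans h) k l + κ g (h.trans k) l - κ g h (k.trans l) + κ g h k = 0

/-- MODULE KAP.  The cocycle.
Proof (from `StHL`, `StNAT`, `StPEN`).  `κ' p q r = w (asc p q r) - f q r - f p (q.trans r) + f p q + f (p.trans q) r`.  If `α : Q2 p p'`, `β : Q2 q q'`, `ε : Q2 r r'` then `κ' p q r = κ' p' q' r'`: apply `w` to `StNAT`: `w (hc (hc α β) ε) = w α + w β + f p' q' - f p q + w ε + f (p' q') r' - f (p q) r` and
`w (hc α (hc β ε)) = w α + (w β + w ε + f q' r' - f q r) + f p' (q' r') - f p (q r)`; `w` is additive.  Homotopic paths have a 2-cell between them (from a `Path.Homotopy`: `mkP`), so `κ g h k = κ' g.out h.out k.out` satisfies `κ (mk p) (mk q) (mk r) = κ' p q r` (`Quotient.mk_out`, `Path.Homotopic.Quotient.exact`).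
Cocycle identity: choose representatives, `mk p` trans `mk q` is `mk (p.trans q)`; apply `w` to `StPEN`: `w (hc (asc p q r) refl) = w (asc p q r) + 0 + f (p (q r)) s - f ((p q) r) s` (`w refl = 0` by additivity), `w (hc refl (asc q r s)) = w (asc q r s) + f p (q (r s)) - f p ((q r) s)`, and insert `w (asc ..) = κ + f + f - f - f`; all `f` cancel (`abel`/`linear_combination`). -/
def StKAP : Prop :=
  ∀ (X : Type) [TopologicalSpace X] (M : Type) [AddCommGroup M]
    (cc : ∀ {x y : X} (p : Path x y), Q2 p p → M)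
    (w : ∀ {x y : X} {p q : Path x y}, Q2 p q → M)
    (f : ∀ {x y z : X}, Path x y → Path y z → M), IsW X M cc w f →
    ∃ κ : ∀ {x y z w : X}, Path.Homotopic.Quotient x y → Path.Homotopic.Quotient y z → Path.Homotopic.Quotient z w → M, IsK X M κ ∧
      ∀ {x y z v : X} (p : Path x y) (q : Path y z) (r : Path z v),
        w (asc p q r) = κ (Path.Homotopic.Quotient.mk p) (Path.Homotopic.Quotient.mk q) (Path.Homotopic.Quotient.mk r) + f q r +
          f p (q.trans r) - f p q - f (p.trans q) r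

/-- MODULE COB.  A cocycle which is a coboundary at `y₀` is a coboundary.
Proof.  Choose `P x : Quotient y₀ x`; `ρ g = ((P x).trans g).trans (P y).symm : Quotient y₀ y₀` for `g : Quotient x y`; `ν x = (P x).symm : Quotient x y₀`; `g.trans (ν y) = (ν x).trans (ρ g)`, `ρ (g.trans h) = (ρ g).trans (ρ h)` (groupoid laws of `Path.Homotopic.Quotient`: `trans_assoc`, `symm_trans`, `trans_symm`, `refl_trans`, `trans_refl`).
`S g h = κ (ν x) (ρ g) (ρ h) - κ g (ν y) (ρ h) + κ g h (ν z)`.  The combination `D (ν x, ρ g, ρ h, ρ k) - D (g, ν y, ρ h, ρ k) + D (g, h, ν z, ρ k) - D (g, h, k, ν t)` of cocycle identities (`D (g, h, k, l)` = the identity in `IsK`) gives `κ (ρ g) (ρ h) (ρ k) - κ g h k = S h k - S (gh) k + S g (hk) - S g h` (rewrite `(ν x).trans (ρ g)` as `g.trans (ν y)` etc.).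
So `b' g h = b (ρ g) (ρ h) - S g h` works. -/
def StCOB : Prop :=
  ∀ (X : Type) [TopologicalSpace X] [PathConnectedSpace X] (y₀ : X) (V : Type) [AddCommGroup V]
    (κ : ∀ {x y z w : X}, Path.Homotopic.Quotient x y → Path.Homotopic.Quotient y z → Path.Homotopic.Quotient z w → V), IsK X V κ →
    ∀ b : Path.Homotopic.Quotient y₀ y₀ → Path.Homotopic.Quotient y₀ y₀ → V,
      (∀ g h k : Path.Homotopic.Quotient y₀ y₀, κ g h k = b h k - b (g.trans h) k + b g (h.trans k) - b g h) →
      ∃ b' : ∀ {x y z : X}, Path.Homotopic.Quotient x y → Path.Homotopic.Quotient y z → V,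
        ∀ {x y z w : X} (g : Path.Homotopic.Quotient x y) (h : Path.Homotopic.Quotient y z) (k : Path.Homotopic.Quotient z w),
          κ g h k = b' h k - b' (g.trans h) k + b' g (h.trans k) - b' g h

/-! ## the untyped calculus -/

/-- `t ↦ t / 2` -/
noncomputable def hl : C(I, I) :=
  ⟨fun t => ⟨(t : ℝ) / 2, by constructor <;> linarith [t.2.1, t.2.2]⟩, by fun_prop⟩

/-- `t ↦ (1 + t) / 2` -/
noncomputable def hr : C(I, I) :=
  ⟨fun t => ⟨(1 + (t : ℝ)) / 2, by constructor <;> linarith [t.2.1, t.2.2]⟩, by fun_prop⟩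

theorem phi_mem (t : I) : phi t ∈ I := by
  have h0 := t.2.1
  have h1 := t.2.2
  unfold phi
  split_ifs with h h' <;> constructor <;> linarith

/-- the reparametrization as a map of the unit interval -/
noncomputable def phiI : C(I, I) :=
  ⟨fun t => ⟨phi t, phi_mem t⟩, (continuous_phi.comp continuous_subtype_val).subtype_mk _⟩

/-- the point `1/2` -/
noncomputable def mid : I := ⟨1 / 2, by constructor <;> norm_num⟩

section

variable {X : Type} [TopologicalSpace X]

/-- 2-cells -/
def IsCell (K : C(I × I, X)) : Prop := ∀ s : I, K (s, 0) = K (0, 0) ∧ K (s, 1) = K (0, 1)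

/-- the path `t ↦ K (s, t)` -/
def row (K : C(I × I, X)) (s : I) : C(I, X) := ⟨fun t => K (s, t), by fun_prop⟩

/-- `K (s / 2, t)` -/
noncomputable def lowS (K : C(I × I, X)) : C(I × I, X) := ⟨fun z => K (hl z.1, z.2), by fun_prop⟩

/-- `K ((1 + s) / 2, t)` -/
noncomputable def upS (K : C(I × I, X)) : C(I × I, X) := ⟨fun z => K (hr z.1, z.2), by fun_prop⟩

/-- `K (s, t / 2)` -/
noncomputable def lowT (K : C(I × I, X)) : C(I × I, X) := ⟨fun z => K (z.1, hl z.2), by fun_prop⟩

/-- `K (s, (1 + t) / 2)` -/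
noncomputable def upT (K : C(I × I, X)) : C(I × I, X) := ⟨fun z => K (z.1, hr z.2), by fun_prop⟩

/-- the 2-cell `R ((1 - s) t + s phi t)` -/
noncomputable def ascU (R : C(I, X)) : C(I × I, X) :=
  ⟨fun z => R ⟨(1 - (z.1 : ℝ)) * z.2 + (z.1 : ℝ) * (phiI z.2 : ℝ), by
    constructor
    · nlinarith [z.1.2.1, z.1.2.2, z.2.2.1, z.2.2.2, (phiI z.2).2.1, (phiI z.2).2.2]
    · nlinarith [z.1.2.1, z.1.2.2, z.2.2.1, z.2.2.2, (phiI z.2).2.1, (phiI z.2).2.2]⟩, by
    have h : Continuous fun z : I × I => ((phiI z.2 : I) : ℝ) :=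
      continuous_subtype_val.comp (phiI.continuous.comp continuous_snd)
    refine R.continuous.comp (Continuous.subtype_mk ?_ _)
    fun_prop⟩

end

/-- The untyped calculus: `w` is defined on 2-cells, `v R` is the value of `f` on the two halves of the path `R`. -/
structure IsU (X : Type) [TopologicalSpace X] (V : Type) [AddCommGroup V] (w : C(I × I, X) → V)
    (v : C(I, X) → V) : Prop where
  vert : ∀ K, IsCell K → w K = w (lowS K) + w (upS K)
  hor : ∀ K, IsCell K → (∀ s, K (s, mid) = K (0, mid)) →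
    w K = w (lowT K) + w (upT K) + v (row K 1) - v (row K 0)
  hom : ∀ (K K' : C(I × I, X)) (L : C(I × (I × I), X)), IsCell K → (∀ z, L (0, z) = K z) →
    (∀ z, L (1, z) = K' z) →
    (∀ r s t, (s = 0 ∨ s = 1 ∨ t = 0 ∨ t = 1) → L (r, (s, t)) = L (0, (s, t))) → w K = w K'
  assoc : ∀ R : C(I, X), w (ascU R) = v ((R.comp phiI).comp hr) + v (R.comp phiI) - v (R.comp hl) -
    v R

/-- MODULE UNT.  From the typed to the untyped calculus.
Proof.  `v R = f P Q` with `P : Path (R 0) (R mid)`, `P t = R (t / 2)`, `Q : Path (R mid) (R 1)`, `Q t = R ((1 + t)/2)`.  For a 2-cell `K`: `toP K hK : Path (row K 0) (row K 1)` (as points of `Path (K (0,0)) (K (0,1))`, with `mkP`), `w K = w (mk (toP K hK))`, and `0` if `K` is not a cell.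
(A) Congruence: if `γ : Path p q` (`p q : Path x y`) and `K (s, t) = γ s t` for all `s`, `t` then `K` is a cell and `w K = w (mk γ)`: `x = K (0,0)`, `y = K (0,1)`: `subst` (state it with `x`, `y` variables), then `p`, `q` are equal to the rows (`Path.ext`), `subst`, then `γ = toP K hK`.  In the same way `v R = f P Q` if `P : Path x y`, `Q : Path y z` and
`R t = (P.trans Q) t` (or: `P t = R (t/2)`, `Q t = R ((1+t)/2)`).
(B) `vert`: `K = (toP (lowS K)).trans (toP (upS K))` pointwise: represent `lowS K` and `upS K` by typed cells with the same end points (the row `1` of `lowS K` is the row `0` of `upS K` = `row K mid`); `w.add`.  (C) `hor`: `K (s, t) = hcP γ δ s t` with `γ s t = K (s, t/2)`, `δ s t = K (s, (1+t)/2)`; `IsW.hor`; `v (row K i) = f (γ i) (δ i)`.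
(D) `hom`: `L` gives a homotopy of paths in `Path x y` (`Path.continuous_uncurry_iff`), so the classes are equal.  (E) `assoc`: `R` is `((p.trans q).trans r)` with `p t = R (t/4)`, `q t = R ((1+t)/4)`, `r t = R ((1+t)/2)`; `ascU R` is represented by `ascP p q r`; `R.comp phiI` is `p.trans (q.trans r)` (`phi_trans`), `(R.comp phiI).comp hr` is `q.trans r`, `R.comp hl` is `p.trans q`. -/
def StUNT : Prop :=
  ∀ (X : Type) [TopologicalSpace X] (V : Type) [AddCommGroup V]
    (w : ∀ {x y : X} {p q : Path x y}, Q2 p q → V) (f : ∀ {x y z : X}, Path x y → Path y z → V),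
    (∀ {x y : X} {p q r : Path x y} (α : Q2 p q) (β : Q2 q r), w (α.trans β) = w α + w β) →
    (∀ {x y z : X} {p p' : Path x y} {q q' : Path y z} (α : Q2 p p') (β : Q2 q q'),
      w (hc α β) = w α + w β + f p' q' - f p q) →
    (∀ {x y z v : X} (p : Path x y) (q : Path y z) (r : Path z v),
      w (asc p q r) = f q r + f p (q.trans r) - f p q - f (p.trans q) r) →
    ∃ (w' : C(I × I, X) → V) (v' : C(I, X) → V), IsU X V w' v' ∧
      ∀ {x y : X} {p q : Path x y} (γ : Path p q), w' (raw γ) = w (Path.Homotopic.Quotient.mk γ)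

end Pool.Agent.Helper70.HH
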