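import Pool.Agent.Helper70.BI.HH.StHB

/-!
# Project BI, stage 7 (H): statements, part C (a 2-cocycle on squares)
-/

set_option autoImplicit false

open scoped Topology unitInterval
open Set

namespace Pool.Agent.Helper70.HH

section

variable {X : Type} [TopologicalSpace X]

/-! ## linear 2-cells in a normed space -/

/-- the 2-cell `(1 - s) p t + s q t` -/
noncomputable def lnm {E : Type} [NormedAddCommGroup E] [NormedSpace ℝ E] (p q : C(I, E)) :
    C(I × I, E) :=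
  ⟨fun z => (1 - (z.1 : ℝ)) • p z.2 + (z.1 : ℝ) • q z.2, by fun_prop⟩

/-- `p` and `q` have the same ends -/
def Same {E : Type} [TopologicalSpace E] (p q : C(I, E)) : Prop := p 0 = q 0 ∧ p 1 = q 1

/-- MODULE WWL.  Laws for linear 2-cells.
Proof.  Write `W p q = w (Φ.comp (lnm p q))`; this is a cell if `Same p q`.
(0) `CONV`: if `h h' : C(I × I, E)` agree on the boundary and `Φ.comp h` is a cell then `w (Φ.comp h) = w (Φ.comp h')` (`IsU.hom` with `L (r, z) = Φ ((1 - r) • h z + r • h' z)`).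
(5) `W p p = 0`: `K = Φ.comp (lnm p p)`, `K (s, t) = Φ (p t)`, `lowS K = K = upS K` so `w K = w K + w K`.
(1) Let `h (s, t) = lnm p q (2s, t)` for `s ≤ 1/2`, `lnm q r (2s - 1, t)` for `s ≥ 1/2`.  `K = Φ.comp h`: `lowS K = Φ.comp (lnm p q)`, `upS K = Φ.comp (lnm q r)`; `h` and `lnm p r` agree on the boundary (`s = 0`: `p t`, `s = 1`: `r t`; `t = 0`, `t = 1`: constant, all the same): `W p r = w K = W p q + W q r`.
(2) `K = Φ.comp (lnm p q)`: `K (s, mid) = Φ (p mid)` constant; `lowT K = Φ.comp (lnm (p.comp hl) (q.comp hl))`, `upT` similar, `row K 0 = Φ.comp p`, `row K 1 = Φ.comp q` (`ContinuousMap.ext`): `IsU.hor`.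
(3) `ascU (Φ.comp R) = Φ.comp h` with `h (s, t) = R ((1-s) t + s phi t)` which agrees with `lnm R (R.comp phiI)` on the boundary (`s = 0`: `R t`; `s = 1`: `R (phi t)`; `t = 0`: `R 0` as `phi 0 = 0`; `t = 1`: `R 1`): `IsU.assoc` and (0).
(4) `Φ.comp (ι.comp (lnm p q)) = Φ.comp (lnm (ι.comp p) (ι.comp q))` because `ι` is affine. -/
def StWWL : Prop :=
  ∀ (X : Type) [TopologicalSpace X] (V : Type) [AddCommGroup V] (w : C(I × I, X) → V)
    (v : C(I, X) → V), IsU X V w v →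
    ∀ (E : Type) [NormedAddCommGroup E] [NormedSpace ℝ E] (Φ : C(E, X)),
      (∀ h h' : C(I × I, E), IsCell (Φ.comp h) →
        (∀ s t, (s = 0 ∨ s = 1 ∨ t = 0 ∨ t = 1) → h (s, t) = h' (s, t)) →
        w (Φ.comp h) = w (Φ.comp h')) ∧
      (∀ p q r : C(I, E), Same p q → Same q r →
        w (Φ.comp (lnm p r)) = w (Φ.comp (lnm p q)) + w (Φ.comp (lnm q r))) ∧
      (∀ p q : C(I, E), Same p q → p mid = q mid →
        w (Φ.comp (lnm p q)) = w (Φ.comp (lnm (p.comp hl) (q.comp hl))) +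
          w (Φ.comp (lnm (p.comp hr) (q.comp hr))) + v (Φ.comp q) - v (Φ.comp p)) ∧
      (∀ R : C(I, E), w (Φ.comp (lnm R (R.comp phiI))) =
        v (Φ.comp ((R.comp phiI).comp hr)) + v (Φ.comp (R.comp phiI)) - v (Φ.comp (R.comp hl)) -
          v (Φ.comp R)) ∧
      (∀ p : C(I, E), w (Φ.comp (lnm p p)) = 0)

/-! ## squares -/

/-- bottom side, then right side of the square: `(min 1 (2t), max 0 (2t - 1))` -/
noncomputable def brm : C(I, I × I) :=
  ⟨fun t => (⟨min 1 (2 * (t : ℝ)), by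
      constructor
      · exact le_min zero_le_one (by linarith [t.2.1])
      · exact min_le_left _ _⟩,
    ⟨max 0 (2 * (t : ℝ) - 1), by
      constructor
      · exact le_max_left _ _
      · exact max_le zero_le_one (by linarith [t.2.2])⟩), by fun_prop⟩

/-- left side, then top side: `(max 0 (2t - 1), min 1 (2t))` -/
noncomputable def ltm : C(I, I × I) := ⟨fun t => (brm t).swap, by fun_prop⟩

/-- the 2-cell from `brm` to `ltm` in the square -/
noncomputable def cellm : C(I × I, I × I) :=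
  ⟨fun z => (⟨(1 - (z.1 : ℝ)) * (brm z.2).1 + (z.1 : ℝ) * (brm z.2).2, by
      constructor
      · nlinarith [z.1.2.1, z.1.2.2, (brm z.2).1.2.1, (brm z.2).2.2.1, (brm z.2).1.2.2,
          (brm z.2).2.2.2]
      · nlinarith [z.1.2.1, z.1.2.2, (brm z.2).1.2.1, (brm z.2).2.2.1, (brm z.2).1.2.2,
          (brm z.2).2.2.2]⟩,
    ⟨(1 - (z.1 : ℝ)) * (brm z.2).2 + (z.1 : ℝ) * (brm z.2).1, by
      constructor
      · nlinarith [z.1.2.1, z.1.2.2, (brm z.2).1.2.1, (brm z.2).2.2.1, (brm z.2).1.2.2,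
          (brm z.2).2.2.2]
      · nlinarith [z.1.2.1, z.1.2.2, (brm z.2).1.2.1, (brm z.2).2.2.1, (brm z.2).1.2.2,
          (brm z.2).2.2.2]⟩), by fun_prop⟩

/-- the value of a square -/
noncomputable def aa {V : Type} [AddCommGroup V] (w : C(I × I, X) → V) (v : C(I, X) → V)
    (S : C(I × I, X)) : V :=
  w (S.comp cellm) + v (S.comp brm) - v (S.comp ltm)

/-- the sides of a square: bottom `y = 0`, top `y = 1`, left `x = 0`, right `x = 1` -/
def botm : C(I, I × I) := ⟨fun x => (x, 0), by fun_prop⟩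
def topm : C(I, I × I) := ⟨fun x => (x, 1), by fun_prop⟩
def lefm : C(I, I × I) := ⟨fun y => (0, y), by fun_prop⟩
def rigm : C(I, I × I) := ⟨fun y => (1, y), by fun_prop⟩

/-- the faces of a cube -/
def fx (c : I) : C(I × I, I × (I × I)) := ⟨fun z => (c, (z.1, z.2)), by fun_prop⟩
def fy (c : I) : C(I × I, I × (I × I)) := ⟨fun z => (z.1, (c, z.2)), by fun_prop⟩
def fz (c : I) : C(I × I, I × (I × I)) := ⟨fun z => (z.1, (z.2, c)), by fun_prop⟩

/-- A 2-cochain `a` on squares which vanishes on boundaries of cubes and is compatible with bisection. -/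
structure IsCoc (X : Type) [TopologicalSpace X] (V : Type) [AddCommGroup V] (a : C(I × I, X) → V)
    (v : C(I, X) → V) : Prop where
  cube : ∀ C : C(I × (I × I), X), a (C.comp (fx 1)) - a (C.comp (fx 0)) -
    (a (C.comp (fy 1)) - a (C.comp (fy 0))) + (a (C.comp (fz 1)) - a (C.comp (fz 0))) = 0
  sdh : ∀ S : C(I × I, X), a S = a (lowS S) + a (upS S) + v (S.comp topm) - v (S.comp botm)
  sdv : ∀ S : C(I × I, X), a S = a (lowT S) + a (upT S) + v (S.comp lefm) - v (S.comp rigm)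

/-- MODULE CUB.  The value of squares vanishes on the boundary of a cube.
Proof (from `StWWL`).  `E = ℝ × ℝ × ℝ`, `Φ = C ∘ clamp : C(E, X)` (`projIcc 0 1` in each coordinate).  For points `P₀ P₁ P₂ ∈ E` let `sg P₀ P₁` = the linear path, `s2 P₀ P₁ P₂` = `P₀ → P₁ → P₂` (`t ≤ 1/2`: `P₀ + 2t (P₁ - P₀)`; then `P₁ + (2t - 1) (P₂ - P₁)`), and for `p q : C(I, E)` with `p 1 = q 0` `ct p q` = the concatenation: `(ct p q).comp hl = p`, `(ct p q).comp hr = q`, `ct (sg ..) (sg ..) = s2`.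
Write `W p q = w (Φ.comp (lnm p q))`, `v p = v (Φ.comp p)`.  Laws: (W1) `W p r = W p q + W q r`; (W2) `W (ct p q) (ct p' q') = W p p' + W q q' + v (ct p' q') - v (ct p q)`; (W3) `W (ct (s2 a b c) (sg c d)) (ct (sg a b) (s2 b c d)) = v (s2 b c d) + v (ct (sg a b) (s2 b c d)) - v (s2 a b c) - v (ct (s2 a b c) (sg c d))`
(`(ct (s2 a b c) (sg c d)).comp phiI = ct (sg a b) (s2 b c d)`); (W5) `W p p = 0`, `W q p = - W p q`.
For a face with corners `A = (0,0)`, `B = (1,0)`, `B' = (0,1)`, `D = (1,1)` (coordinates of the square, mapped to the cube) `aa w v (face) = W (s2 A B D) (s2 A B' D) + v (s2 A B D) - v (s2 A B' D)` (`Φ ∘ s2 A B D = face ∘ brm`, `Φ ∘ lnm .. = face ∘ cellm`: equality of maps).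
Vertices `000` etc.  `P₁ = ct (s2 000 100 110) (sg 110 111)`, `P₂ = ct (sg 000 100) (s2 100 110 111)`, `P₃ = ct (sg 000 100) (s2 100 101 111)`, `P₄ = ct (s2 000 100 101) (sg 101 111)`, `P₅ = ct (s2 000 001 101) (sg 101 111)`, `P₆ = ct (sg 000 001) (s2 001 101 111)`, `P₇ = ct (sg 000 001) (s2 001 011 111)`;
`Q₂ = ct (s2 000 010 110) (sg 110 111)`, `Q₃ = ct (sg 000 010) (s2 010 110 111)`, `Q₄ = ct (sg 000 010) (s2 010 011 111)`, `Q₅ = ct (s2 000 010 011) (sg 011 111)`, `Q₆ = ct (s2 000 001 011) (sg 011 111)`, and `Q₇ = P₇ = ct (sg 000 001) (s2 001 011 111)`.  `W P₁ P₇` by (W1) along `P₁ .. P₇` and along `P₁, Q₂, .., Q₆, P₇`: steps `P₂ → P₃` (face `x = 1`), `P₄ → P₅`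
(face `y = 0`), `P₆ → P₇` (face `z = 1`), `P₁ → Q₂` (face `z = 0`), `Q₃ → Q₄` (face `y = 1`), `Q₅ → Q₆` (face `x = 0`) by (W2), (W5), the other steps by (W3) or its inverse.  The resulting identity is the claim (`linear_combination`; all `v` terms cancel). -/
def StCUB : Prop :=
  ∀ (X : Type) [TopologicalSpace X] (V : Type) [AddCommGroup V] (w : C(I × I, X) → V)
    (v : C(I, X) → V), IsU X V w v → ∀ C : C(I × (I × I), X),
      aa w v (C.comp (fx 1)) - aa w v (C.comp (fx 0)) -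
        (aa w v (C.comp (fy 1)) - aa w v (C.comp (fy 0))) +
        (aa w v (C.comp (fz 1)) - aa w v (C.comp (fz 0))) = 0

/-- MODULE BIS.  The value of squares and bisection.
Proof (from `StWWL`; notation of module CUB with `E = ℝ × ℝ`, `Φ = S ∘ clamp`).  (H) Points `A = (0,0)`, `M = (1/2,0)`, `B = (1,0)`, `A' = (0,1)`, `M' = (1/2,1)`, `B' = (1,1)`.  Note `sg A B = ct (sg A M) (sg M B)`, `sg A' B' = ct (sg A' M') (sg M' B')`.
`R₁ = ct (s2 A M B) (sg B B') = s2 A B B'`, `R₂ = ct (sg A M) (s2 M B B')`, `R₃ = ct (sg A M) (s2 M M' B')`, `R₄ = ct (s2 A M M') (sg M' B')`, `R₅ = ct (s2 A A' M') (sg M' B')`, `R₆ = ct (sg A A') (s2 A' M' B') = s2 A A' B'`.  `W R₁ R₆` = sum of the steps: (W3), face `upS S` (right half), inverse of (W3), face `lowS S` (left half), (W3); `linear_combination`: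
`aa S = aa (lowS S) + aa (upS S) + v (s2 A' M' B') - v (s2 A M B)`, where `Φ ∘ s2 A' M' B' = S ∘ topm`, `Φ ∘ s2 A M B = S ∘ botm`.
(V) Points `A = (0,0)`, `N = (0,1/2)`, `A' = (0,1)`, `B = (1,0)`, `N' = (1,1/2)`, `B' = (1,1)`.  `T₁ = s2 A B B' = ct (sg A B) (s2 B N' B')`, `T₂ = ct (s2 A B N') (sg N' B')`, `T₃ = ct (s2 A N N') (sg N' B')`, `T₄ = ct (sg A N) (s2 N N' B')`, `T₅ = ct (sg A N) (s2 N A' B')`, `T₆ = ct (s2 A N A') (sg A' B') = s2 A A' B'`.
Steps: inverse of (W3), face `lowT S`, (W3), face `upT S`, inverse of (W3). -/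
def StBIS : Prop :=
  ∀ (X : Type) [TopologicalSpace X] (V : Type) [AddCommGroup V] (w : C(I × I, X) → V)
    (v : C(I, X) → V), IsU X V w v → ∀ S : C(I × I, X),
      aa w v S = aa w v (lowS S) + aa w v (upS S) + v (S.comp topm) - v (S.comp botm) ∧
      aa w v S = aa w v (lowT S) + aa w v (upT S) + v (S.comp lefm) - v (S.comp rigm)

/-- MODULE BDC.  The value of a square which is constant on the boundary.
Proof.  `S` is `y` on the boundary.  `v (S.comp brm) = v (S.comp ltm)` (both maps are constant `y`).  Let `Φ : C(ℝ × ℝ, X)`, `Φ = S ∘ clamp`: `Φ z = y` if `z` is not in the open square `(0,1)²`.  `c = (1/2, 1/2)`.  Both `S.comp cellm = Φ ∘ ψ` with `ψ = cellm` and the transposed square `Φ ∘ ψ'`, `ψ' (s, t) = (t, s)`.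
`ψ` and `ψ'` map the boundary of the square to its boundary (`ψ (0, t) = brm t`, `ψ (1, t) = ltm t`, `ψ (s, 0) = (0,0)`, `ψ (s, 1) = (1,1)`).  Put `ψ_λ = c + λ (ψ - c)`, same for `ψ'`.  Three steps with `IsU.hom` (the homotopies are `y` on the boundary): (a) `Φ ∘ ψ_λ`, `λ ∈ [1, 3]` (boundary values outside the open square, as `|ψ - c|_∞ = 1/2` there);
(b) `Φ ∘ ((1 - u) ψ_3 + u ψ'_3)`: on the boundary one needs `|(1 - u) (ψ - c) + u (ψ' - c)|_∞ ≥ 1/6`.  `s = 0`: `ψ' = (t, 0)`, `ψ = (min 1 (2t), max 0 (2t-1))`: for `t ≤ 1/2` second coordinate `0 - 1/2`.  For `t ≥ 1/2` the point is `(1 - u + u t, (1 - u) (2t - 1))`: if `(1-u)(2t-1) ≤ 1/3` the second coordinate minus `1/2` is `≤ -1/6`; otherwise `1 - u > 1/3`, `2t - 1 > 1/3`, so `u < 2/3`,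
`1 - t < 1/3`, `u (1 - t) < 2/9` and the first coordinate minus `1/2` is `1/2 - u (1 - t) ≥ 5/18`.  `s = 1`: swap the coordinates and use the symmetry (`ψ (1, t) = (max 0 (2t-1), min 1 (2t))`, `ψ' (1, t) = (t, 1)`): for `t ≥ 1/2` second coordinate `1`; for `t ≤ 1/2` the point is `(u t, (1-u) 2t + u)`: if `(1-u) 2t + u ≥ 2/3` fine; otherwise `u < 2/3` and `t < 1/3` so `u t < 2/9 < 1/3`: first coordinate minus `1/2 ≤ -1/6`.
`t = 0`: `ψ = (0,0)`, `ψ' = (0, s)`: first coordinate `0`.  `t = 1`: `ψ = (1,1)`, `ψ' = (1, s)`: first coordinate `1`.  (c) back from `ψ'_3` to `ψ'`. -/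
def StBDC : Prop :=
  ∀ (X : Type) [TopologicalSpace X] (V : Type) [AddCommGroup V] (w : C(I × I, X) → V)
    (v : C(I, X) → V), IsU X V w v → ∀ (S T : C(I × I, X)) (y : X),
      (∀ s t, (s = 0 ∨ s = 1 ∨ t = 0 ∨ t = 1) → S (s, t) = y) → (∀ s t, T (s, t) = S (t, s)) →
      aa w v S = w T

end

end Pool.Agent.Helper70.HH
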