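import Pool.Agent.Helper70.BI.HH.StHC
import Pool.Agent.Helper34.BI5.VK5

/-!
# Project BI, stage 7 (H): statements, part D (Mayer-Vietoris: 2-cocycles on the complement of a knotted sphere)
-/

set_option autoImplicit false

open scoped Topology unitInterval Manifold ContDiff
open Set Pool.Agent.Helper65.Barb Pool.Agent.Helper18.BI
open Pool.Agent.Helper34.S5 (zc Gc nm Off)

namespace Pool.Agent.Helper70.HH

/-- Every 1-cocycle on the paths of `E` is a coboundary. -/
def SC1 (E : Type) [TopologicalSpace E] : Prop :=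
  ∀ (V : Type) [AddCommGroup V] (θ : C(I, E) → V),
    (∀ S : C(I × I, E), θ (S.comp botm) + θ (S.comp rigm) - θ (S.comp lefm) - θ (S.comp topm) = 0) →
    (∀ x : E, θ (ContinuousMap.const I x) = 0) → ∃ φ : E → V, ∀ e : C(I, E), θ e = φ (e 1) - φ (e 0)

/-- MODULE SCA.  Simply connected spaces.
Proof.  `E` is path connected and two paths with the same ends are homotopic (`SimplyConnectedSpace.paths_homotopic`).  Fix `e₀`, choose `γ x : Path e₀ x`, `φ x = θ (γ x)`.  (a) `θ` of homotopic paths is equal: a homotopy `H : Path.Homotopy p q` (`H (s, t)`) gives the square `S (x, y) = H (y, x)` with bottom `p`, top `q`, constant left and right sides (`θ = 0` there).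
(b) `θ (p.trans q) = θ p + θ q` for `p : Path a b`, `q : Path b c`: the square `S (x, y) = (p.trans q) (y + (1 - y) x / 2)` has bottom `x ↦ (p.trans q) (x / 2) = p x`, right side `y ↦ (p.trans q) ((1 + y)/2) = q y`, left side `p.trans q`, top side constant.  For `e` from `x` to `y` (as a path): `(γ x).trans e` is homotopic to `γ y`. -/
def StSCA : Prop :=
  ∀ (E : Type) [TopologicalSpace E] [SimplyConnectedSpace E], SC1 E

/-- the covering space of the punctured tube: logarithm of the transversal coordinate and direction -/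
abbrev EE (κ : ℝ) : Type := {z : ℂ × R3 // z.1.re < κ ∧ nsq z.2 = 1}

/-- MODULE SCB.  The covering space of the punctured tube is simply connected.
Proof.  The half plane `re < κ` is convex.  The unit sphere `S = {m : R3 | nsq m = 1}` (`R3 = ℝ × ℂ`; `nsq m = m.1² + m.2.re² + m.2.im²`) is path connected, and two paths `p`, `q` in it with the same ends `a`, `b` are homotopic:
(i) every path in `S` is homotopic (rel ends) to a polygonal path followed by radial projection: `N` large with `|p u - p u'| < 1` for `|u - u'| ≤ 1/N`, `p' ` = the piecewise linear interpolation of `p` at `j/N` (`|p' u - p u| < 1` in the Euclidean norm), and the homotopy is the radial projection of `(1 - s) p + s p'` (nonzero).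
(ii) The cone over a polygonal path `p'` and its ends is contained in a finite union of linear subspaces of dimension `≤ 2` (spanned by two consecutive vertices), which is not all of `R3`: there is `d ∈ S` such that `d` is not in the union of these planes for `p'` and `q'` (`Subspace.biUnion_ne_univ_of_top_notMem` or a measure argument).  So `p'` and `q'` are paths in `S \ {d}` (the projected ones), which is homeomorphic to a plane by stereographic projection
(or: `S \ {d}`: the radial projection of `(1 - s) x + s (-d)` is a contraction to `-d`: `(1 - s) x - s d = 0` with `|x| = |d| = 1` only if `s = 1/2`, `x = d`); paths with the same ends in a contractible space are homotopic.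
Alternative: `S` is the union of the open contractible sets `m.1 > -1/2`, `m.1 < 1/2` with path connected intersection: Lebesgue number argument.  Finally `EE κ` is homeomorphic to the product of the half plane and `S`; the product of two simply connected spaces: paths are homotopic componentwise (`Path.Homotopic.prodHomotopy`); `simply_connected_iff_paths_homotopic'`. -/
def StSCB : Prop := ∀ κ : ℝ, SimplyConnectedSpace (EE κ)

/-- MODULE MVA.  The deck transformation.
Proof.  (1) For `e : C(I, E)` let `P e : C(I × I, X)`, `P e (t, s) = D (s, e t)`, `ũ e = a (P e)`.  For `S : C(I × I, E)` apply `IsCoc.cube` to `C (x, (y, s)) = D (s, S (x, y))`: faces `fx 1`: `P (S.comp rigm)`, `fx 0`: `P (S.comp lefm)`, `fy 1`: `P (S.comp topm)`, `fy 0`: `P (S.comp botm)`, `fz 1`: `(x, y) ↦ D (1, S (x, y))`, `fz 0`: `Q.comp S`.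
So `a (Q.comp S) - a (D₁ S) = ũ (bot) + ũ (right) - ũ (left) - ũ (top)`.
(2) `θ e = ũ (τ e) - ũ e`: the right side of (1) is the same for `τ S` and `S` (`Q τ = Q`, `D₁ τ = D₁`), so `θ (bot) + θ (right) - θ (left) - θ (top) = 0`.  `θ (const z) = 0`: a square `S` with `S (t, s) = c s` (independent of `t`) has `lowS S = S = upS S`, so `a S = v (S.comp botm) - v (S.comp topm) = v (const (c 0)) - v (const (c 1))` by `IsCoc.sdh`; for `c s = D (s, τ z)` and `c s = D (s, z)` the end points agree.
By `SC1 E` `θ e = φ (e 1) - φ (e 0)`.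
(3) There is `Ψ : E → V` with `Ψ (τ z) = Ψ z + φ z`: `z₀ = τ^(-deg z) z`, `Ψ z = G (deg z)` with `G 0 = 0`, `G (n + 1) = G n + φ (τ^n z₀)` for `n : ℤ` (`G n = ∑ i ∈ range n.toNat, φ (τ^i z₀) - ∑ i ∈ range (-n).toNat, φ (τ^(-(i+1)) z₀)`); `(τ z)₀ = z₀`.
(4) `U e = ũ e - (Ψ (e 1) - Ψ (e 0))`: the correction is a coboundary (the sum over the four sides of a square is `0`), and `U (τ e) - U e = θ e - (φ (e 1) - φ (e 0)) = 0`. -/
def StMVA : Prop :=
  ∀ (X E : Type) [TopologicalSpace X] [TopologicalSpace E] (V : Type) [AddCommGroup V]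
    (a : C(I × I, X) → V) (v : C(I, X) → V), IsCoc X V a v → SC1 E →
    ∀ (Q : C(E, X)) (D : C(I × E, X)) (τ : E ≃ₜ E) (deg : E → ℤ), (∀ z, D (0, z) = Q z) →
      (∀ z, Q (τ z) = Q z) → (∀ z, D (1, τ z) = D (1, z)) → (∀ z, deg (τ z) = deg z + 1) →
      ∃ U : C(I, E) → V, (∀ e e' : C(I, E), (∀ t, e' t = τ (e t)) → U e' = U e) ∧
        ∀ (S : C(I × I, E)) (S₀ S₁ : C(I × I, X)), (∀ z, S₀ z = Q (S z)) →
          (∀ z, S₁ z = D (1, S z)) →
          a S₀ - a S₁ = U (S.comp botm) + U (S.comp rigm) - U (S.comp lefm) - U (S.comp topm)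

/-- MODULE TDA.  The tube around a knotted sphere.
Proof.  As in `exists_tub` (`Pool/Agent/Helper34/BI5/VK5.lean`): `hA1` gives a partial diffeomorphism `δ` with `SP ⊆ δ.source` and `F = δ` there; `{p | ‖zc p‖ < η} ⊆ δ.source` for small `η` (there: `htube`, `Gc c v ∈ δ.source` for `‖c‖ < η`, `v ≠ 0`; and `p = Gc (zc p) (p.2 - (1, 0))` by `Gc_zc`; `p.2 ≠ (1, 0)` because otherwise `‖zc p‖ ≥ 1/5`).
`g = δ.symm`. -/
def StTDA : Prop :=
  ∀ F : R4 → R4, EmbOn 𝓘(ℝ, R4) F SP → ∃ η ∈ Ioc (0 : ℝ) (1 / 5), ∃ g : R4 → R4,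
    IsOpen (F '' {p | ‖zc p‖ < η}) ∧ ContinuousOn F {p | ‖zc p‖ < η} ∧
    ContinuousOn g (F '' {p | ‖zc p‖ < η}) ∧ ∀ p, ‖zc p‖ < η → g (F p) = p

/-- MODULE TDB.  Logarithms of nonvanishing functions on the interval and on the square.
Proof.  `Complex.exp` is a covering map onto `{0}ᶜ` (Mathlib: `Complex.isCoveringMapOn_exp` or similar, in `Mathlib/Analysis/SpecialFunctions/...`; search `isCoveringMap` and `exp`); lifting of maps from simply connected, locally path connected spaces (`Mathlib/Topology/Homotopy/Lifting.lean`).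
Direct proof for `Y = I × I` (the interval follows by composing with the projection `I × I → I`): by uniform continuity there is `n` with `|c y / c y' - 1| < 1` if `dist y y' ≤ 1/n`.  `ℓ (x, t) = log c (0, 0) + ∑ k < n, Log (c ((k+1)/n · (x, t)) / c (k/n · (x, t)))` (principal branch; the quotients are in the disk of radius `1` around `1`, where `Log` is continuous; `exp` of the sum telescopes). -/
def StTDB : Prop :=
  (∀ c : C(I, ℂ), (∀ y, c y ≠ 0) → ∃ ℓ : C(I, ℂ), ∀ y, Complex.exp (ℓ y) = c y) ∧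
  ∀ c : C(I × I, ℂ), (∀ y, c y ≠ 0) → ∃ ℓ : C(I × I, ℂ), ∀ y, Complex.exp (ℓ y) = c y

/-- The 2-cocycle `a` on the complement of `K` extends, up to a coboundary, over a neighbourhood `N` of `K`:
`a S = a (ρ S) + ` (sum of `u` over the sides) for squares `S` in `N \ K`. -/
def HasU {K : Set R4} {V : Type} [AddCommGroup V] (a : C(I × I, Off K) → V) (N : Set R4)
    (ρ : R4 → R4) : Prop :=
  ∃ u : C(I, Off K) → V, ∀ S S' : C(I × I, Off K), (∀ z, (S z : R4) ∈ N) →
    (∀ z, (S' z : R4) = ρ (S z)) →
    a S - a S' = u (S.comp botm) + u (S.comp rigm) - u (S.comp lefm) - u (S.comp topm)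

/-- MODULE MVU.  The neighbourhood.
Proof (from `StTDA`, `StTDB`, `StSCA`, `StSCB`, `StMVA`).  `K = F '' sph 1`, `η`, `g` from `StTDA`, `T = {p | ‖zc p‖ < η}`, `N = F '' T` (open, contains `K` because `zc p = 0` iff `p ∈ sph 1`, `zc_eq_zero`).  `κ = log η`, `E = EE κ`, `ℓ₀ = κ - 1`.  For `(ℓ, m) ∈ E`: `Gc (exp ℓ) m ∈ T`, not in `sph 1` (`zc (Gc c m) = c` for `m ≠ 0`, `-(1/5) < c.im`: `zc_Gc`; `‖exp ℓ‖ < η ≤ 1/5`), so `F (Gc (exp ℓ) m) ∉ K` (`F` is injective on `T`).
`Q (ℓ, m) = F (Gc (exp ℓ) m)`, `D (s, (ℓ, m)) = F (Gc (exp ((1 - s) ℓ + s ℓ₀)) m)`, `τ (ℓ, m) = (ℓ + 2 π i, m)`, `deg (ℓ, m) = ⌊im ℓ / 2 π⌋` (continuity: `continuousOn_Gc`).  `ρ x = F (Gc (exp ℓ₀) (g x - (1,0)))` where `(g x).2 - (1, 0) ≠ 0` for `x ∈ N`: precisely `ρ x = F (Gc (exp ℓ₀) ((g x).2 - (1, 0)))`; continuous on `N`, not in `K`; `ρ (Q z) = D (1, z)` (`Gc_snd`, `Gc_smul`: the direction of `(Gc c m).2 - (1,0)` is `m`).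
`StMVA` gives `U`.  Lifts: for `e : C(Y, Off K)` (`Y = I` or `I × I`) with values in `N`: `c y = zc (g (e y)) ≠ 0`, `ℓ` from `StTDB`, `m y = (nm w)⁻¹ • w`, `w = (g (e y)).2 - (1, 0)`: `(ℓ y, m y) ∈ E` (`‖exp ℓ‖ = ‖c‖ < η`), `Q (ℓ y, m y) = e y` (`Gc_zc`, `Gc_smul`).  Two lifts of the same path differ by `τ^n` for a fixed `n` (the difference of the logarithms is a continuous function with values in `2 π i ℤ`, the directions agree), so
`U` has the same value on them (induction on `n`).  `u e = U (some lift)` (`0` if `e` is not in `N`).  For a square `S` in `N` take a lift `S̃`; its sides are lifts of the sides of `S`. -/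
def StMVU : Prop :=
  ∀ F : R4 → R4, EmbOn 𝓘(ℝ, R4) F SP → ∃ (N : Set R4) (ρ : R4 → R4), IsOpen N ∧
    F '' sph 1 ⊆ N ∧ ContinuousOn ρ N ∧ (∀ x ∈ N, ρ x ∉ F '' sph 1) ∧
    ∀ (V : Type) [AddCommGroup V] (a : C(I × I, Off (F '' sph 1)) → V)
      (v : C(I, Off (F '' sph 1)) → V), IsCoc (Off (F '' sph 1)) V a v → HasU a N ρ

section

variable {X : Type} [TopologicalSpace X] {V : Type} [AddCommGroup V]

/-- sum over the `4 ^ k` dyadic subsquares -/
noncomputable def sumS (a : C(I × I, X) → V) : ℕ → C(I × I, X) → V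
  | 0, S => a S
  | k + 1, S => sumS a k (lowT (lowS S)) + sumS a k (upT (lowS S)) + sumS a k (lowT (upS S)) +
      sumS a k (upT (upS S))

/-- sum over the `2 ^ k` dyadic subintervals -/
noncomputable def sumE (u : C(I, X) → V) : ℕ → C(I, X) → V
  | 0, e => u e
  | k + 1, e => sumE u k (e.comp hl) + sumE u k (e.comp hr)

/-- the boundary term of the iterated bisection -/
noncomputable def bisE (v : C(I, X) → V) : ℕ → C(I, X) → V
  | 0, _ => 0
  | k + 1, e => v e + bisE v k (e.comp hl) + bisE v k (e.comp hr)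

/-- alternating sum over the faces of a cube -/
def dC (a : C(I × I, X) → V) (C : C(I × (I × I), X)) : V :=
  a (C.comp (fx 1)) - a (C.comp (fx 0)) - (a (C.comp (fy 1)) - a (C.comp (fy 0))) +
    (a (C.comp (fz 1)) - a (C.comp (fz 0)))

/-- the halves of a cube in the three directions; `h = hl` or `hr` -/
def halfX (h : C(I, I)) (C : C(I × (I × I), X)) : C(I × (I × I), X) :=
  ⟨fun z => C (h z.1, (z.2.1, z.2.2)), by fun_prop⟩
def halfY (h : C(I, I)) (C : C(I × (I × I), X)) : C(I × (I × I), X) :=
  ⟨fun z => C (z.1, (h z.2.1, z.2.2)), by fun_prop⟩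
def halfZ (h : C(I, I)) (C : C(I × (I × I), X)) : C(I × (I × I), X) :=
  ⟨fun z => C (z.1, (z.2.1, h z.2.2)), by fun_prop⟩

/-- the subcube of a cube -/
def sub8 (h h' h'' : C(I, I)) (C : C(I × (I × I), X)) : C(I × (I × I), X) :=
  halfX h (halfY h' (halfZ h'' C))

/-- all dyadic subcubes of level `k` have the property `P` -/
def AllSub (P : C(I × (I × I), X) → Prop) : ℕ → C(I × (I × I), X) → Prop
  | 0, C => P C
  | k + 1, C => ∀ h h' h'' : C(I, I), (h = hl ∨ h = hr) → (h' = hl ∨ h' = hr) →
      (h'' = hl ∨ h'' = hr) → AllSub P k (sub8 h h' h'' C)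

end

/-- MODULE GRD.  Iterated bisection.
Proof.  (1) Induction on `k`.  `dC (sumS g (k+1)) C` is the sum of `dC (sumS g k)` over the 8 subcubes: a face such as `fx 1` of `C` has the four quarters `fx 1` of the subcubes with `h = hr` (`lowS`, `upS` act on the first coordinate of the face, `lowT`, `upT` on the second; equality of maps by `ContinuousMap.ext`, `hr 1 = 1`, `hl 0 = 0`), and the interior faces cancel (`hl 1 = hr 0`).
(2), (3) Induction on `k` with `IsCoc.sdh` for `S` and `IsCoc.sdv` for `lowS S`, `upS S`: `a S = a (lowT (lowS S)) + a (upT (lowS S)) + a (lowT (upS S)) + a (upT (upS S)) + v (top) - v (bot) + v (left) - v (right)` (the vertical middle line `(lowS S).comp rigm = (upS S).comp lefm` cancels), and the boundary terms of the four quarters add up: `(lowS S)` etc. sides: e.g. `(lowT (lowS S)).comp botm = (S.comp botm).comp hl`.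
(4) Let `λ` be a Lebesgue number of the cover of the compact set `range C` by the open sets `Kᶜ` and `N`, and `δ > 0` with `dist (C z) (C z') < λ` for `dist z z' < δ`.  By induction on `k`: if `∀ z z', dist z z' * 2^(-k) < δ → dist (C z) (C z') < λ'` .. : for a cube `C'` with modulus `M δ C' := ∀ z z', dist z z' < δ → dist (C' z) (C' z') < λ` the subcubes satisfy `M (2 δ)`, and if `δ > 1` then `C'` has image of diameter `< λ`, so it is in `Kᶜ` or in `N` (all images are in `range C`). -/
def StGRD : Prop :=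
  (∀ (X V : Type) [TopologicalSpace X] [AddCommGroup V] (g : C(I × I, X) → V)
    (P : C(I × (I × I), X) → Prop), (∀ C, P C → dC g C = 0) →
    ∀ (k : ℕ) (C : C(I × (I × I), X)), AllSub P k C → dC (sumS g k) C = 0) ∧
  (∀ (X V : Type) [TopologicalSpace X] [AddCommGroup V] (a : C(I × I, X) → V) (v : C(I, X) → V),
    IsCoc X V a v → ∀ (k : ℕ) (S : C(I × I, X)),
      a S = sumS a k S + bisE v k (S.comp topm) - bisE v k (S.comp botm) +
        bisE v k (S.comp lefm) - bisE v k (S.comp rigm)) ∧
  (∀ (X V : Type) [TopologicalSpace X] [AddCommGroup V] (u : C(I, X) → V) (k : ℕ)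
    (S : C(I × I, X)),
      sumS (fun S => u (S.comp botm) + u (S.comp rigm) - u (S.comp lefm) - u (S.comp topm)) k S =
        sumE u k (S.comp botm) + sumE u k (S.comp rigm) - sumE u k (S.comp lefm) -
          sumE u k (S.comp topm)) ∧
  (∀ (K N : Set R4), IsClosed K → IsOpen N → K ⊆ N → ∀ C : C(I × (I × I), R4), ∃ k : ℕ,
    AllSub (fun C => (∀ z, C z ∉ K) ∨ ∀ z, C z ∈ N) k C)

/-- MODULE MVF.  A 2-cocycle on the complement of `K` vanishes on spheres.
Proof (from `StGRD`).  For `T : C(I × I, R4)` with values outside `K` write `T° : C(I × I, Off K)`.  `u' e = u e` if the path `e` in `Off K` is in `N`, and `0` otherwise; `∂ T = u' (bot) + u' (right) - u' (left) - u' (top)`.  Let `g T = a T° - ∂ T°` if `T` avoids `K`; `g T = a (ρ T)` (`ρ T : C(I × I, Off K)`, continuous as `ContinuousOn ρ N`) if `T` meets `K` and is in `N`; `0` otherwise.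
(1) If `T` is in `N` then `g T = a (ρ T)`: by `HasU` if `T` avoids `K` (all sides are in `N`, `u' = u`).  (2) `dC g C = 0` if `C` avoids `K` (`IsCoc.cube` for `C°`; the `∂` terms cancel: each edge of the cube occurs twice) or if `C` is in `N` (`IsCoc.cube` for `ρ C`).
(3) `C (x, (t, z)) = (1 - z) • S (x, t) + z • y : C(I × (I × I), R4)`.  `k` from `StGRD` (4); `dC (sumS g k) C = 0` by (1) of `StGRD`.  The faces `fx 0`, `fx 1`, `fy 0`, `fy 1` are the constant square `y`, `fz 1` is the constant square, `fz 0` is `S`: so `sumS g k S = sumS g k (const y)`.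
(4) For `T` avoiding `K` (all its subsquares avoid `K`): `sumS g k T = sumS a k T° - sumS ∂ k T°` (induction on `k`), and `sumS ∂ k S° = 0 = sumS ∂ k (const y)` by `StGRD` (3), because the four sides of `S°` are the constant path.  So `sumS a k S° = sumS a k (const y)`; `StGRD` (2): `a S° = a (const y)`. -/
def StMVF : Prop :=
  ∀ (K N : Set R4) (ρ : R4 → R4), IsClosed K → IsOpen N → K ⊆ N → ContinuousOn ρ N →
    (∀ x ∈ N, ρ x ∉ K) → ∀ (V : Type) [AddCommGroup V] (a : C(I × I, Off K) → V)
    (v : C(I, Off K) → V), IsCoc (Off K) V a v → HasU a N ρ →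
    ∀ (S : C(I × I, Off K)) (y : Off K),
      (∀ s t, (s = 0 ∨ s = 1 ∨ t = 0 ∨ t = 1) → S (s, t) = y) → a S = a (ContinuousMap.const _ y)

end Pool.Agent.Helper70.HH
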