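import Pool.Agent.Helper70.BI.HH.StHD
import Pool.Agent.Helper18.BI.R.StR4
import Pool.Agent.Helper70.BI.StF2

/-!
# Project BI, stage 7 (H): statements, part E (group homology; the complement of a knotted sphere in the 4-sphere)
-/

set_option autoImplicit false

open scoped Topology unitInterval Manifold ContDiff
open Set Pool.Agent.Helper65.Barb Pool.Agent.Helper18.BI

namespace Pool.Agent.Helper70.HH

/-- the third homology group of a group, with integer coefficients -/
noncomputable abbrev H3 (G : Type) [Group G] : ModuleCat ℤ :=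
  groupHomology (Rep.trivial ℤ G ℤ) 3

/-- MODULE GHA.  A 3-cocycle and the third homology group.
Proof.  `A = Rep.trivial ℤ G ℤ`, `C n = (Fin n → G) →₀ ℤ`, `d n : C (n+1) → C n` = `groupHomology.inhomogeneousChains.d A n` (`d_single`; the action is trivial).  `K : C 3 →ₗ[ℤ] M`, `K = Finsupp.linearCombination ℤ (fun x => F (x 0) (x 1) (x 2))`.
(1) `K ∘ d 3 = 0`: on `single x 1`, `x = (g, h, k, l)`: by `d_single` and `Fin.sum_univ_four` it is `F h k l - F (gh) k l + F g (hk) l - F g h (kl) + F g h k` (`Fin.contractNth` evaluated at `0, 1, 2`: `Fin.contractNth_apply_of_lt`, `_of_eq`, `_of_gt` or `simp [Fin.contractNth]`).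
(2) `θ`: the map `iCycles ≫ K : cycles A 3 ⟶ ModuleCat.of ℤ M` vanishes on `toCycles 4 3` (`toCycles_i`, `d_def`, (1)), so it descends to homology: `HomologicalComplex.homologyIsCokernel` (`CokernelCofork.IsColimit.desc'`) or `(inhomogeneousChains A).descOpcycles ..` with `homologyι`; `θ (π (cyclesMk f)) = K f` for `f : C 3` with `d 2 f = 0` (`iCycles_mk`).
(3) Surjective: let `N` be the range of `θ` (an additive subgroup of `M`), and assume `N ≠ ⊤`.  There is a character `χ' : M ⧸ N →+ AddCircle (1 : ℚ)` different from `0` (`CharacterModule.exists_character_apply_ne_zero_of_ne_zero`); `χ : M →+ AddCircle 1` the composition with `M → M ⧸ N`, `χ ≠ 0`.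
`χ ∘ K : C 3 →+ AddCircle 1` vanishes on `ker (d 2)` (`K f = θ (..) ∈ N`), so it factors through the range `R` of `d 2` in `C 2` (`LinearMap.quotKerEquivRange`, `Submodule.liftQ`), and extends to `β : C 2 →+ AddCircle 1` (`CharacterModule.dual_surjective_of_injective` for `R.subtype`, `Mathlib/Algebra/Module/CharacterModule.lean`): `χ (K f) = β (d 2 f)`.
`b g h = β (single ![g, h] 1)`: for `f = single ![g, h, k] 1` `d 2 f = (h, k) - (gh, k) + (g, hk) - (g, h)`, so `χ (F g h k) = b h k - b (gh) k + b g (hk) - b g h` and `χ = 0` by the hypothesis: a contradiction. -/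
def StGHA : Prop :=
  ∀ (G : Type) [Group G] (M : Type) [AddCommGroup M] (F : G → G → G → M),
    (∀ g h k l : G, F h k l - F (g * h) k l + F g (h * k) l - F g h (k * l) + F g h k = 0) →
    (∀ (χ : M →+ AddCircle (1 : ℚ)) (b : G → G → AddCircle (1 : ℚ)),
      (∀ g h k : G, χ (F g h k) = b h k - b (g * h) k + b g (h * k) - b g h) → χ = 0) →
    ∃ θ : H3 G →+ M, Function.Surjective θ

/-- every 2-cocycle on `X` has the same value on a square which is constant on the boundary and on a constant square -/
def VAN (X : Type) [TopologicalSpace X] : Prop :=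
  ∀ (V : Type) [AddCommGroup V] (a : C(I × I, X) → V) (v : C(I, X) → V), IsCoc X V a v →
    ∀ (S : C(I × I, X)) (y : X), (∀ s t, (s = 0 ∨ s = 1 ∨ t = 0 ∨ t = 1) → S (s, t) = y) →
      a S = a (ContinuousMap.const _ y)

/-- MODULE PCN.  The complement of the fixed cuff is path connected.
Proof.  (1) For `G : R4 → R4`, `EmbOn 𝓘(ℝ, R4) G SP`, `K = G '' sph 1`: `exists_tub` (`Pool/Agent/Helper34/BI5/VK5.lean`) gives `T : Tub K R3`; `T.pc` (`VK3.lean`) and `ball_pc` (`VK4.lean`; `K` is compact, hence closed): `ball c r \ K` is path connected for all balls, so any two points of `Off K` can be joined in `Off K`.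
(2) Let `x, y` be points off `A = B '' sph 1`.  `B '' SP ∪ {x, y}` is compact with empty interior (as in module CHT: `Pool/Agent/Helper71/BI6/M_CHT.lean`), so by `StX2c` there is a chart `c` with `B '' SP ∪ {x, y} ⊆ range c`.  `StX3` (for `c`, `B`, `L = SP`): `G = fun p => invFun c (B p)`, `c (G p) = B p` on `SP`; `K = G '' sph 1 = c ⁻¹' A`
(`c` is injective).  Join `c⁻¹ x` and `c⁻¹ y` in `Off K` and apply `c`. -/
def StPCN : Prop :=
  ∀ B : PartialDiffeomorph 𝓘(ℝ, R4) (𝓡 4) R4 S4 ∞, SP ⊆ B.source →
    ∀ A : Set S4, A = B '' sph 1 → ∀ x y : {x : S4 // x ∉ A}, Joined x y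

/-- MODULE CHV.  2-cocycles on the complement of the fixed cuff in the 4-sphere.
Proof (from `StLIP`, `StDIM`, `StX2c`, `StX3`, `StMVU`, `StMVF`).  Let `X = {x // x ∉ A}`, `A` compact, `S`, `y`, `(a, v)` be given.
(1) `StLIP` for `X := ℝ × ℝ`, `P = Icc 0 1 ×ˢ Icc 0 1`, `P₀` = the boundary of the square, `f z = S (projIcc .. z.1, projIcc .. z.2)` (as a point of `S4`; constant `y` on `P₀`), `K := A`: `g` Lipschitz on `P`, and a homotopy `H` off `A`, constant on `P₀`.
`StDIM` for `(u, q, s) ↦ g (q, s)` on `Icc 0 1 ×ˢ Icc 0 1 ×ˢ Icc 0 1`: `g '' P` is compact with empty interior.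
(2) `IsCoc.cube` for `C (u, (q, s)) = H (u, (q, s))` (as a point of `X`): the faces `fy`, `fz` are the constant square `y`, so `a S = a S'`, `S' z = g z`.
(3) `g '' P ∪ B '' SP` is compact with empty interior (for `B '' SP` see `Pool/Agent/Helper71/BI6/M_CHT.lean`), so there is a chart `c` (`StX2c`) whose range contains it; `StX3`: `G = fun p => invFun c (B p)`, `EmbOn 𝓘(ℝ, R4) G SP`, `c (G p) = B p` on `SP`; `K = G '' sph 1`: `x ∈ K ↔ c x ∈ A`.
`c` restricts to `c' : C(Off K, X)`; `a' T = a (c'.comp T)`, `v' e = v (c'.comp e)` is a cocycle on `Off K` (`IsCoc`; compositions are definitionally equal).  `S' = c'.comp S''` with `S'' z = c⁻¹ (g z)` (continuous: `c` is an open embedding), constant on the boundary.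
(4) `StMVU` for `G` gives `N`, `ρ` and `HasU a' N ρ`, `StMVF`: `a' S'' = a' (const)`, so `a S' = a (const y)`. -/
def StCHV : Prop :=
  ∀ B : PartialDiffeomorph 𝓘(ℝ, R4) (𝓡 4) R4 S4 ∞, SP ⊆ B.source →
    ∀ A : Set S4, A = B '' sph 1 → VAN {x : S4 // x ∉ A}

/-- MODULE SUR (helper70).  The second homotopy group modulo drift is a quotient of the third homology group of the
fundamental group. -/
def StSUR : Prop :=
  ∀ (X : Type) [TopologicalSpace X] [PathConnectedSpace X] (y₀ : X), VAN X →
    ∃ θ : H3 (FundamentalGroup X y₀) →+ MM X y₀, Function.Surjective θ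

end Pool.Agent.Helper70.HH
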