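import Pool.Agent.Helper70.BI.HH.StHE
import Pool.Agent.Helper70.BI.T.M_SPN
import Pool.Agent.Helper18.BI.S5.M_FIN8

/-!
# Project BI, stage 7 (H): the final theorem in the vocabulary of the hand-ins
-/

set_option autoImplicit false

open scoped Topology unitInterval Manifold ContDiff
open Set Pool.Agent.Helper65.Barb Pool.Agent.Helper18.BI
open Pool.Agent.Helper70.Fin (Emb coreSphere)
open Pool.Agent.Helper18.FinR (Pi2)
open Pool.Agent.Helper18.FinS
open Pool.Agent.Helper18.FinT (Drift)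

namespace Pool.Agent.Helper70.HH

/-- the second homotopy group of the complement of the fixed cuff of `B` modulo the quotients of freely homotopic
elements, written additively -/
abbrev Coinv (B : Emb) (y₀ : Off B) : Type :=
  Additive (Pi2 (fixedCuff B) y₀ ⧸ Subgroup.closure (Drift B y₀))

/-- the class of `z` modulo drift -/
noncomputable def cv {B : Emb} {y₀ : Off B} (z : Pi2 (fixedCuff B) y₀) : Coinv B y₀ :=
  Additive.ofMul (QuotientGroup.mk z)

/-- the third homology group bounds the implantations -/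
def StGHB : Prop :=
  ∃ (W : S4 → S4) (B₀ : Emb), IsImplantation B₀ W ∧ BoundsDisjointBalls B₀ ∧
    Isotopic (fun x => W (W x)) (fun x => x) ∧ IsCentral W ∧
    (∀ (B : Emb) (y₀ : Off B), IsBarbell B → IsBase B y₀ →
      ∃ (θ : H3 (FundamentalGroup (Off B) y₀) →+ Coinv B y₀)
        (Ψ : H3 (FundamentalGroup (Off B) y₀) → S4 → S4), Function.Surjective θ ∧
        (∀ h h' : H3 (FundamentalGroup (Off B) y₀), (∃ z ∈ gen (MovedClasses B y₀), θ h = cv z) →
          (∃ z ∈ gen (MovedClasses B y₀), θ h' = cv z) →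
          UpTo W (Ψ (h + h')) (fun x => Ψ h (Ψ h' x))) ∧
        (∀ (B' : Emb) (φ : S4 → S4) (z : Pi2 (fixedCuff B) y₀)
          (h : H3 (FundamentalGroup (Off B) y₀)), IsImplantation B' φ → SameFixed B B' →
          IsClass B y₀ B' z → θ h = cv z → UpTo W φ (Ψ h)) ∧
        ∀ h : H3 (FundamentalGroup (Off B) y₀),
          (∃ z ∈ gen {v | IsParallelClass B y₀ v}, θ h = cv z) → UpTo W (Ψ h) (fun x => x)) ∧
    ∀ (B B' : Emb) (y₀ : Off B) (φ : S4 → S4), IsBarbell B → IsBase B y₀ →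
      (Subsingleton (H3 (FundamentalGroup (Off B) y₀)) ∨
        Nonempty (FundamentalGroup (Off B) y₀ ≃* Multiplicative ℤ)) →
      (B' = B ∨ Exchanged B B') → IsImplantation B' φ → UpTo W φ (fun x => x)

namespace GHB

/-! ### calculus up to `W` -/

section
variable {W : S4 → S4} (hCI : StCI) (h2 : Isotopic (fun x => W (W x)) (fun x => x))
  (hc : IsCentral W)
include hCI

theorem c_iff {φ ψ : S4 → S4} : CIsot (𝓡 4) φ ψ ↔ Isot (𝓡 4) φ ψ := by
  obtain ⟨-, -, -, -, -, -, -, -, ciso, ccomp⟩ := hCI _ _ (𝓡 4) S4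
  exact ⟨ciso φ ψ, ccomp inferInstance φ ψ⟩

theorem i_self {φ ψ : S4 → S4} (h : UpTo W φ ψ) : Isotopic φ φ := by
  obtain ⟨-, -, cself, -⟩ := hCI _ _ (𝓡 4) S4
  rcases h with h | h
  · exact (c_iff hCI).1 (cself _ _ ((c_iff hCI).2 h))
  · exact (c_iff hCI).1 (cself _ _ ((c_iff hCI).2 h))

theorem i_symm {φ ψ : S4 → S4} (h : Isotopic φ ψ) : Isotopic ψ φ := by
  obtain ⟨-, cs, -⟩ := hCI _ _ (𝓡 4) S4
  exact (c_iff hCI).1 (cs _ _ ((c_iff hCI).2 h))

theorem i_trans {φ ψ χ : S4 → S4} (h : Isotopic φ ψ) (h' : Isotopic ψ χ) : Isotopic φ χ := by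
  obtain ⟨-, -, -, ct, -⟩ := hCI _ _ (𝓡 4) S4
  exact (c_iff hCI).1 (ct _ _ _ ((c_iff hCI).2 h) ((c_iff hCI).2 h'))

theorem i_comp {φ ψ φ' ψ' : S4 → S4} (h : Isotopic φ ψ) (h' : Isotopic φ' ψ') :
    Isotopic (fun x => φ (φ' x)) (fun x => ψ (ψ' x)) := by
  obtain ⟨-, -, -, -, cc, -⟩ := hCI _ _ (𝓡 4) S4
  exact (c_iff hCI).1 (cc _ _ _ _ ((c_iff hCI).2 h) ((c_iff hCI).2 h'))

omit hCI in
include hc in
theorem WW : Isotopic W W :=
  hc (fun x => x) (fun x => x) contMDiff_id contMDiff_id (fun _ => rfl) fun _ => rfl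

include h2 hc

theorem u_trans {φ ψ χ : S4 → S4} (hχ : Isotopic χ χ) (h : UpTo W φ ψ) (h' : UpTo W ψ χ) :
    UpTo W φ χ := by
  rcases h with h | h
  · rcases h' with h' | h'
    · exact Or.inl (i_trans hCI h h')
    · exact Or.inr (i_trans hCI h h')
  · rcases h' with h' | h'
    · exact Or.inr (i_trans hCI h (i_comp hCI (WW hc) h'))
    · left
      refine i_trans hCI h (i_trans hCI (i_comp hCI (WW hc) h') ?_)
      exact i_comp hCI (φ := fun x => W (W x)) (ψ := fun x => x) (φ' := χ) (ψ' := χ) h2 hχ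

theorem u_symm {φ ψ : S4 → S4} (hψ : Isotopic ψ ψ) (h : UpTo W φ ψ) : UpTo W ψ φ := by
  rcases h with h | h
  · exact Or.inl (i_symm hCI h)
  · right
    have e1 : Isotopic (fun x => W (φ x)) (fun x => W (W (ψ x))) :=
      i_comp hCI (WW hc) h
    have e2 : Isotopic (fun x => W (W (ψ x))) ψ :=
      i_comp hCI (φ := fun x => W (W x)) (ψ := fun x => x) (φ' := ψ) (ψ' := ψ) h2 hψ
    exact i_symm hCI (i_trans hCI e1 e2)

theorem u_mul {φ ψ χ : S4 → S4} (hχ : Isotopic χ χ) (h : UpTo W φ (fun x => ψ (χ x)))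
    (h' : UpTo W ψ (fun x => x)) : UpTo W φ χ := by
  refine u_trans hCI h2 hc hχ h ?_
  rcases h' with h' | h'
  · exact Or.inl (i_comp hCI (ψ := fun x => x) (φ' := χ) (ψ' := χ) h' hχ)
  · exact Or.inr (i_comp hCI (ψ := fun x => W x) (φ' := χ) (ψ' := χ) h' hχ)

end

theorem gen_mono {B : Emb} {y₀ : Off B} {S T : Set (Pi2 (fixedCuff B) y₀)} (h : S ⊆ T) {z}
    (hz : z ∈ gen S) : z ∈ gen T := Subgroup.closure_mono h hz

theorem gen_mul {B : Emb} {y₀ : Off B} {S : Set (Pi2 (fixedCuff B) y₀)} {z z'}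
    (hz : z ∈ gen S) (hz' : z' ∈ gen S) : z * z' ∈ gen S :=
  (Subgroup.closure S).mul_mem hz hz'

theorem gen_inv {B : Emb} {y₀ : Off B} {S : Set (Pi2 (fixedCuff B) y₀)} {z}
    (hz : z ∈ gen S) : z⁻¹ ∈ gen S :=
  (Subgroup.closure S).inv_mem hz

theorem fixedCuff_eq (B : Emb) : fixedCuff B = B '' sph 1 := by
  unfold fixedCuff
  rw [R.RELS.coreSphere_eq]
  rfl

end GHB

theorem ghb (hCI : StCI) (hSQD : T.StSQD) (hMQ : R.StMQ) (h8 : S5.StFinal8) (hPCN : StPCN)
    (hCHV : StCHV) (hSUR : StSUR) (hCYC : ∀ (G : Type) [Group G],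
      Nonempty (G ≃* Multiplicative ℤ) → Subsingleton (H3 G)) : StGHB := by
  obtain ⟨W, B₀, w1, w2, w3, w4, w5, -, w7⟩ := h8
  -- the surjection
  have hθ : ∀ (B : Emb) (y₀ : Off B), IsBarbell B →
      ∃ θ : H3 (FundamentalGroup (Off B) y₀) →+ Coinv B y₀, Function.Surjective θ := by
    intro B y₀ hB
    have hSP : SP ⊆ B.source := fun p hp => hB (Helper70.BI.Fin2.SP_sub_NB hp)
    have : PathConnectedSpace (Off B) :=
      ⟨⟨y₀⟩, fun x y => hPCN B hSP _ (GHB.fixedCuff_eq B) x y⟩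
    obtain ⟨θ, hθ⟩ := hSUR (Off B) y₀ (hCHV B hSP _ (GHB.fixedCuff_eq B))
    have hsub : Subgroup.closure (T.drift y₀) ≤
        (Subgroup.closure (Drift B y₀)).comap (MonoidHom.id _) := by
      rw [Subgroup.closure_le]
      intro v hv
      obtain ⟨k, x, x', h1, h2, h3⟩ := T.SPN.drift_sub hSQD hMQ hv
      exact Subgroup.subset_closure ⟨k, x, x', h1, h2, h3⟩
    refine ⟨(MonoidHom.toAdditive (QuotientGroup.map _ _ (MonoidHom.id _) hsub)).comp θ, ?_⟩
    intro m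
    obtain ⟨z, hz⟩ := QuotientGroup.mk_surjective (Additive.toMul m)
    obtain ⟨h, hh⟩ := hθ (Additive.ofMul (QuotientGroup.mk z))
    refine ⟨h, ?_⟩
    show MonoidHom.toAdditive (QuotientGroup.map _ _ (MonoidHom.id _) hsub) (θ h) = m
    rw [hh]
    exact congrArg Additive.ofMul hz
  have hcv : ∀ (B : Emb) (y₀ : Off B) (z z' : Pi2 (fixedCuff B) y₀), cv z = cv z' →
      z' * z⁻¹ ∈ Subgroup.closure (Drift B y₀) := by
    intro B y₀ z z' h
    have h1 : (QuotientGroup.mk z : Pi2 (fixedCuff B) y₀ ⧸ Subgroup.closure (Drift B y₀)) =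
      QuotientGroup.mk z' := h
    have h2 := QuotientGroup.eq.1 h1
    rwa [R.FIN4.pi2_comm] at h2
  refine ⟨W, B₀, w1, w2, w3, w4, ?_, ?_⟩
  · intro B y₀ hB hy
    obtain ⟨θ, hθs⟩ := hθ B y₀ hB
    obtain ⟨e1, Φ, e2, e3, e4⟩ := w5 B y₀ hB hy
    classical
    -- representatives
    let P : H3 (FundamentalGroup (Off B) y₀) → Prop := fun h =>
      ∃ z ∈ gen (MovedClasses B y₀), θ h = cv z
    have hone : (1 : Pi2 (fixedCuff B) y₀) ∈ gen (MovedClasses B y₀) :=
      Subgroup.one_mem (Subgroup.closure (MovedClasses B y₀))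
    have hself : ∀ z ∈ gen (MovedClasses B y₀), Isotopic (Φ z) (Φ z) := by
      intro z hz
      have h1 := GHB.i_self hCI (e2 z hz 1 hone)
      rwa [mul_one] at h1
    -- change of the representative
    have hrep : ∀ z ∈ gen (MovedClasses B y₀), ∀ z' ∈ gen (MovedClasses B y₀), cv z = cv z' →
        UpTo W (Φ z') (Φ z) := by
      intro z hz z' hz' h
      have h1 : z' * z⁻¹ ∈ gen (MovedClasses B y₀) := GHB.gen_mul hz' (GHB.gen_inv hz)
      have h2 := e2 _ h1 z hz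
      rw [inv_mul_cancel_right] at h2
      refine GHB.u_mul hCI w3 w4 (hself z hz) h2 (e4 _ h1 ?_)
      exact GHB.gen_mono subset_union_right (hcv B y₀ z z' h)
    have hΨ : ∃ Ψ : H3 (FundamentalGroup (Off B) y₀) → S4 → S4, ∀ h, P h →
        ∃ z ∈ gen (MovedClasses B y₀), θ h = cv z ∧ Ψ h = Φ z := by
      refine ⟨fun h => if hh : P h then Φ (Classical.choose hh) else fun x => x, fun h hh => ?_⟩
      obtain ⟨a1, a2⟩ := Classical.choose_spec hh
      exact ⟨Classical.choose hh, a1, a2, dif_pos hh⟩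
    obtain ⟨Ψ, hΨ⟩ := hΨ
    refine ⟨θ, Ψ, hθs, ?_, ?_, ?_⟩
    · intro h h' hh hh'
      have hs : P (h + h') := by
        obtain ⟨z, hz, hz2⟩ := hh
        obtain ⟨z', hz', hz2'⟩ := hh'
        refine ⟨z * z', GHB.gen_mul hz hz', ?_⟩
        rw [map_add, hz2, hz2']
        rfl
      obtain ⟨z, a1, a2, a3⟩ := hΨ h hh
      obtain ⟨z', b1, b2, b3⟩ := hΨ h' hh'
      obtain ⟨z'', c1, c2, c3⟩ := hΨ _ hs
      rw [a3, b3, c3]
      have h1 : cv (z * z') = cv z'' := by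
        rw [← c2, map_add, a2, b2]
        rfl
      have h2 := hrep _ (GHB.gen_mul a1 b1) _ c1 h1
      exact GHB.u_trans hCI w3 w4 (GHB.i_comp hCI (hself _ a1) (hself _ b1)) h2 (e2 _ a1 _ b1)
    · intro B' φ z h hφ hsf hcl hz
      have hzm : z ∈ gen (MovedClasses B y₀) :=
        Subgroup.subset_closure (Or.inl ⟨B', hφ.1, hsf, hcl⟩)
      obtain ⟨z', a1, a2, a3⟩ := hΨ h ⟨z, hzm, hz⟩
      rw [a3]
      have h1 : UpTo W (Φ z) (Φ z') := hrep _ a1 _ hzm (a2.symm.trans hz)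
      exact GHB.u_trans hCI w3 w4 (hself _ a1) (e3 B' φ z hφ hsf hcl) h1
    · rintro h ⟨z, hz, hz2⟩
      have hzm : z ∈ gen (MovedClasses B y₀) := GHB.gen_mono (fun v hv => Or.inr hv) hz
      obtain ⟨z', a1, a2, a3⟩ := hΨ h ⟨z, hzm, hz2⟩
      rw [a3]
      refine e4 _ a1 ?_
      have h1 := hcv B y₀ z _ (hz2.symm.trans a2)
      have h3 : z' * z⁻¹ * z ∈
          gen (Helper18.FinT.ElementaryClasses B y₀ ∪ Drift B y₀) :=
        GHB.gen_mul (GHB.gen_mono subset_union_right h1)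
          (GHB.gen_mono (fun v hv => Or.inl (Or.inr hv)) hz)
      rwa [inv_mul_cancel_right] at h3
  · intro B B' y₀ φ hB hy hH' hBB' hφ
    have hH : Subsingleton (H3 (FundamentalGroup (Off B) y₀)) := hH'.elim id (hCYC _)
    obtain ⟨θ, hθs⟩ := hθ B y₀ hB
    obtain ⟨e1, -⟩ := w5 B y₀ hB hy
    obtain ⟨z, hz⟩ := e1 B hB ⟨univ, isOpen_univ, subset_univ _, fun _ _ => rfl⟩
    have hzd : z ∈ Subgroup.closure (Drift B y₀) := by
      obtain ⟨h, hh⟩ := hθs (cv z)
      have h0 : h = 0 := Subsingleton.elim _ _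
      rw [h0, map_zero] at hh
      have h1 := hcv B y₀ 1 z (show cv (1 : Pi2 (fixedCuff B) y₀) = cv z from hh)
      rwa [inv_one, mul_one] at h1
    have hel : Helper18.FinT.Elementary B := by
      refine Helper18.FinT.Elementary.sum B y₀ 0 (fun i => i.elim0) (fun i => i.elim0) z hB hy
        (fun i => i.elim0) (fun i => i.elim0) (fun i => i.elim0) ?_ hz
      exact GHB.gen_mono subset_union_right hzd
    rcases hBB' with rfl | hex
    · exact w7 _ φ hel hφ
    · exact w7 B' φ (Helper18.FinT.Elementary.exchange B B' hel hφ.1 hex) hφ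

end Pool.Agent.Helper70.HH
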